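import Mathlib
import Pool.Agent.R68.Woven.Defs

/-!
# Rooted trees and embeddings (tree part of the classification of woven graphs), helper489
-/

set_option autoImplicit false
set_option linter.unusedSectionVars false

namespace Pool.Agent.R489.Wov

open Pool.Agent.R68.Wov Finset

/-- rooted tree data for `T` with root `z`, parent map `par` and level function `lev` -/
structure RT {V : Type} (T : SimpleGraph V) (z : V) (par : V → V) (lev : V → ℕ) : Prop where
  adjpar : ∀ x, x ≠ z → T.Adj x (par x)
  adj : ∀ x y, T.Adj x y → (x ≠ z ∧ par x = y) ∨ (y ≠ z ∧ par y = x)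
  lz : lev z = 0
  lpar : ∀ x, x ≠ z → lev x = lev (par x) + 1

theorem exists_RT {V : Type} {T : SimpleGraph V} (hT : T.IsTree) (z : V) :
    ∃ par, RT T z par (T.dist z) := by
  classical
  have h1 : ∀ x, ∃ p : T.Walk z x, p.IsPath ∧ p.length = T.dist z x := fun x =>
    hT.connected.exists_path_of_dist z x
  choose P hP hPl using h1
  have hnil : ∀ x, x ≠ z → ¬ (P x).Nil := by
    intro x hx hn
    exact hx hn.eq.symm
  refine ⟨fun x => (P x).penultimate, ?_, ?_, ?_, ?_⟩
  · intro x hx
    exact ((P x).adj_penultimate (hnil x hx)).symm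
  · intro x y hxy
    have key : ∀ x y, T.Adj x y → T.dist z x = T.dist z y + 1 →
        (x ≠ z ∧ (P x).penultimate = y) := by
      intro x y hxy hd
      refine ⟨?_, ?_⟩
      · rintro rfl
        simp at hd
      · have hy : y ∈ (P x).support := by
          by_contra hy
          have hp : ((P x).concat hxy).IsPath := (hP x).concat hy hxy
          have : (⟨_, hp⟩ : T.Path z y) = ⟨P y, hP y⟩ :=
            (hT.isAcyclic.subsingleton_path z y).elim _ _
          have h2 := congrArg (fun q : T.Path z y => q.1.length) this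
          simp only [SimpleGraph.Walk.length_concat] at h2
          rw [hPl, hPl] at h2
          omega
        exact (hT.isAcyclic.eq_penultimate_of_adj_end (hP x) hxy hy).symm
    rcases hT.dist_eq_dist_add_one_of_adj z hxy with h | h
    · exact Or.inl (key x y hxy h)
    · exact Or.inr (key y x hxy.symm h)
  · simp
  · intro x hx
    have ha := ((P x).adj_penultimate (hnil x hx)).symm
    rcases hT.dist_eq_dist_add_one_of_adj z ha with h | h
    · exact h
    · exfalso
      have h3 : (P x).penultimate ∈ (P x).support := by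
        rw [SimpleGraph.Walk.penultimate]
        exact (P x).getVert_mem_support _
      have h4 : T.dist z (P x).penultimate ≤ ((P x).takeUntil _ h3).length :=
        SimpleGraph.dist_le _
      have h5 := (P x).length_takeUntil_le_length h3
      rw [hPl] at h5
      omega

/-- `Desc z par c x`: the vertex `x` is `c` or a descendant of `c` -/
inductive Desc {V : Type} (z : V) (par : V → V) (c : V) : V → Prop
  | refl : Desc z par c c
  | step (x : V) : x ≠ z → Desc z par c (par x) → Desc z par c x

section basic

variable {V : Type} {T : SimpleGraph V} {z : V} {par : V → V} {lev : V → ℕ}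

theorem Desc.cases' {c x : V} (h : Desc z par c x) : x = c ∨ (x ≠ z ∧ Desc z par c (par x)) := by
  cases h with
  | refl => exact Or.inl rfl
  | step _ h1 h2 => exact Or.inr ⟨h1, h2⟩

theorem Desc.par_of_ne {c x : V} (h : Desc z par c x) (hne : x ≠ c) : Desc z par c (par x) :=
  (h.cases'.resolve_left hne).2

theorem Desc.trans {c x y : V} (h : Desc z par c x) (h' : Desc z par x y) : Desc z par c y := by
  induction h' with
  | refl => exact h
  | step y hy _ ih => exact Desc.step y hy ih

theorem desc_z {c : V} (h : Desc z par c z) : c = z := by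
  rcases h.cases' with h | h
  · exact h.symm
  · exact absurd rfl h.1

theorem Desc.ne_z {c x : V} (h : Desc z par c x) (hc : c ≠ z) : x ≠ z := by
  rintro rfl
  exact hc (desc_z h)

theorem RT.lev_le (R : RT T z par lev) {c x : V} (h : Desc z par c x) : lev c ≤ lev x := by
  induction h with
  | refl => exact le_rfl
  | step x hx _ ih => rw [R.lpar x hx]; omega

theorem RT.lev_lt (R : RT T z par lev) {c x : V} (h : Desc z par c x) (hne : x ≠ c) :
    lev c < lev x := by
  rcases h.cases' with h1 | ⟨h1, h2⟩
  · exact absurd h1 hne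
  · have := R.lev_le h2
    rw [R.lpar x h1]; omega

theorem RT.eq_of_lev (R : RT T z par lev) {c x : V} (h : Desc z par c x) (hl : lev x ≤ lev c) :
    x = c := by
  by_contra hne
  have := R.lev_lt h hne
  omega

/-- two ancestors of the same vertex are comparable -/
theorem RT.comp (R : RT T z par lev) {a b x : V} (ha : Desc z par a x) (hb : Desc z par b x)
    (hl : lev a ≤ lev b) : Desc z par a b := by
  induction hb with
  | refl => exact ha
  | step x hx hb ih =>
    apply ih
    rcases ha.cases' with h | h
    · exfalso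
      have h1 := R.lev_le hb
      have h2 := R.lpar x hx
      rw [h] at h2
      rw [h] at h1
      omega
    · exact h.2

theorem RT.eq_of_common (R : RT T z par lev) {a b x : V} (ha : Desc z par a x)
    (hb : Desc z par b x) (hl : lev a = lev b) : a = b :=
  (R.eq_of_lev (R.comp ha hb hl.le) hl.ge).symm

theorem RT.desc_root (R : RT T z par lev) (x : V) : Desc z par z x := by
  obtain ⟨n, hn⟩ : ∃ n, lev x = n := ⟨_, rfl⟩
  induction n generalizing x with
  | zero =>
    by_cases hx : x = z
    · rw [hx]; exact Desc.refl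
    · have := R.lpar x hx; omega
  | succ n ih =>
    by_cases hx : x = z
    · rw [hx]; exact Desc.refl
    · exact Desc.step x hx (ih (par x) (by have := R.lpar x hx; omega))

/-- every vertex other than the root has an ancestor of level one -/
theorem RT.exists_top (R : RT T z par lev) (x : V) (hx : x ≠ z) :
    ∃ c, c ≠ z ∧ par c = z ∧ Desc z par c x := by
  have h := R.desc_root x
  induction h with
  | refl => exact absurd rfl hx
  | step x hx' h ih =>
    by_cases hp : par x = z
    · exact ⟨x, hx, hp, Desc.refl⟩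
    · obtain ⟨c, h1, h2, h3⟩ := ih hp
      exact ⟨c, h1, h2, Desc.step x hx' h3⟩

/-- a proper ancestor has a child on the way -/
theorem exists_child {c x : V} (h : Desc z par c x) (hne : x ≠ c) :
    ∃ y, y ≠ z ∧ par y = c ∧ Desc z par y x := by
  induction h with
  | refl => exact absurd rfl hne
  | step x hx h ih =>
    by_cases hp : par x = c
    · exact ⟨x, hx, hp, Desc.refl⟩
    · obtain ⟨y, h1, h2, h3⟩ := ih hp
      exact ⟨y, h1, h2, Desc.step x hx h3⟩

theorem RT.lev_one (R : RT T z par lev) {c : V} (hc : c ≠ z) (hp : par c = z) : lev c = 1 := by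
  rw [R.lpar c hc, hp, R.lz]

theorem RT.adj_child (R : RT T z par lev) {c x : V} (hx : x ≠ z) (hp : par x = c) :
    T.Adj c x := by
  have := R.adjpar x hx
  rw [hp] at this
  exact this.symm

theorem desc_child {c x : V} (hx : x ≠ z) (hp : par x = c) : Desc z par c x :=
  Desc.step x hx (by rw [hp]; exact Desc.refl)

variable {a b : V} {K : Set V}

theorem down_or_up (R : RT T z par lev) (E : Emb T a b K) {x : V} (hx : x ≠ z) :
    (E.g x ≠ z ∧ par (E.g x) = E.g (par x)) ∨ (E.g (par x) ≠ z ∧ par (E.g (par x)) = E.g x) :=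
  R.adj _ _ (E.adj _ _ (R.adjpar x hx))

theorem inj_K (E : Emb T a b K) {x y : V} (h : E.g x = E.g y) (hK : E.g x ∈ K) : x = y :=
  E.inj x y h (Or.inl hK)

theorem inj_nbr (E : Emb T a b K) {p x y : V} (hp : E.g p ∉ K) (hx : T.Adj p x) (hy : T.Adj p y)
    (h : E.g x = E.g y) : x = y := by
  by_cases hK : E.g x ∈ K
  · exact inj_K E h hK
  · refine E.inj x y h (Or.inr ?_)
    have h1 := E.idx _ _ hx hp hK
    have h2 := E.idx _ _ hy hp (by rw [← h]; exact hK)
    rw [← h1, ← h2]

/-- going down continues unless a turning vertex is met -/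
theorem down_step (R : RT T z par lev) (E : Emb T a b K) {x : V} (hx : x ≠ z) (hp : par x ≠ z)
    (hd : E.g (par x) ≠ z ∧ par (E.g (par x)) = E.g (par (par x)))
    (hK : E.g (par x) ∉ K ∨ E.g (par (par x)) ∈ K) :
    E.g x ≠ z ∧ par (E.g x) = E.g (par x) := by
  rcases down_or_up R E hx with h | h
  · exact h
  · exfalso
    have h1 : E.g x = E.g (par (par x)) := by rw [← h.2, hd.2]
    have hne : x ≠ par (par x) := by
      intro he
      have h2 := R.lpar x hx
      have h3 := R.lpar (par x) hp
      rw [← he] at h3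
      omega
    by_cases hk : E.g (par (par x)) ∈ K
    · exact hne (inj_K E h1 (by rw [h1]; exact hk))
    · have hk' := hK.resolve_right hk
      exact hne (inj_nbr E hk' (R.adjpar x hx).symm (R.adjpar _ hp) h1)

/-- the dichotomy for a branch which starts downwards -/
theorem branch (R : RT T z par lev) (E : Emb T a b K) {u : V} (hu : u ≠ z)
    (hd : E.g u ≠ z ∧ par (E.g u) = E.g (par u)) :
    (∃ y, Desc z par u y ∧ E.g y ∈ K ∧ Desc z par (E.g u) (E.g y)) ∨
    (∀ y, Desc z par u y → E.g y ∉ K ∧ Desc z par (E.g u) (E.g y) ∧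
      lev (E.g y) + lev u = lev (E.g u) + lev y ∧ E.g y ≠ z ∧ par (E.g y) = E.g (par y)) := by
  by_cases h : ∃ y, Desc z par u y ∧ E.g y ∈ K ∧ Desc z par (E.g u) (E.g y)
  · exact Or.inl h
  · right
    push Not at h
    intro y hy
    induction hy with
    | refl =>
      refine ⟨fun hK => h u Desc.refl hK Desc.refl, Desc.refl, rfl, hd.1, hd.2⟩
    | step x hx hdx ih =>
      obtain ⟨h1, h2, h3, h4, h5⟩ := ih
      have hp : par x ≠ z := hdx.ne_z hu
      have h6 := down_step R E hx hp ⟨h4, h5⟩ (Or.inl h1)
      have h7 : Desc z par (E.g u) (E.g x) := Desc.step _ h6.1 (by rw [h6.2]; exact h2)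
      refine ⟨fun hK => h x (Desc.step x hx hdx) hK h7, h7, ?_, h6.1, h6.2⟩
      have h8 := R.lpar x hx
      have h9 := R.lpar _ h6.1
      rw [h6.2] at h9
      omega

theorem idx_const (R : RT T z par lev) (E : Emb T a b K) {u : V} 
    (h : ∀ y, Desc z par u y → E.g y ∉ K) {y : V} (hy : Desc z par u y) : E.i y = E.i u := by
  induction hy with
  | refl => rfl
  | step x hx hdx ih =>
    rw [← ih]
    exact E.idx _ _ (R.adjpar x hx) (h x (Desc.step x hx hdx)) (h _ hdx)

theorem inj_branch (R : RT T z par lev) (E : Emb T a b K) {u : V} 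
    (h : ∀ y, Desc z par u y → E.g y ∉ K) {x y : V} (hx : Desc z par u x) (hy : Desc z par u y)
    (he : E.g x = E.g y) : x = y :=
  E.inj x y he (Or.inr (by rw [idx_const R E h hx, idx_const R E h hy]))

end basic

section fin

variable {V : Type} [Fintype V] {T : SimpleGraph V} {z : V} {par : V → V} {lev : V → ℕ}
variable {a b : V} {K : Set V}

open Classical in
/-- the branch at `c` as a finite set -/
noncomputable def sub (z : V) (par : V → V) (c : V) : Finset V := univ.filter (Desc z par c)

theorem mem_sub {c x : V} : x ∈ sub z par c ↔ Desc z par c x := by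
  classical
  simp [sub]

open Classical in
/-- the children of `c` as a finite set -/
noncomputable def ch (z : V) (par : V → V) (c : V) : Finset V :=
  univ.filter (fun x => x ≠ z ∧ par x = c)

theorem mem_ch {c x : V} : x ∈ ch z par c ↔ x ≠ z ∧ par x = c := by
  classical
  simp [ch]

theorem card_lt_of (R : RT T z par lev) (E : Emb T a b K) {u c w : V}
    (h : ∀ y, Desc z par u y → E.g y ∉ K ∧ Desc z par c (E.g y))
    (hw : Desc z par c w) (hwn : w ∈ K) :
    (sub z par u).card < (sub z par c).card := by
  classical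
  have h1 : (sub z par u).card ≤ ((sub z par c).erase w).card := by
    apply Finset.card_le_card_of_injOn E.g
    · intro y hy
      have hy' : Desc z par u y := mem_sub.1 hy
      have h2 := h y hy'
      rw [Finset.mem_coe, Finset.mem_erase, mem_sub]
      refine ⟨?_, h2.2⟩
      intro he
      apply h2.1
      rw [he]
      exact hwn
    · intro x hx y hy he
      exact inj_branch R E (fun y hy => (h y hy).1) (mem_sub.1 hx) (mem_sub.1 hy) he
  rw [Finset.card_erase_of_mem (mem_sub.2 hw)] at h1
  have h3 : 0 < (sub z par c).card := Finset.card_pos.2 ⟨w, mem_sub.2 hw⟩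
  omega

theorem card_le_of (R : RT T z par lev) (E : Emb T a b K) {u c : V}
    (h : ∀ y, Desc z par u y → E.g y ∉ K ∧ Desc z par c (E.g y)) :
    (sub z par u).card ≤ (sub z par c).card := by
  classical
  apply Finset.card_le_card_of_injOn E.g
  · intro y hy
    exact mem_sub.2 (h y (mem_sub.1 hy)).2
  · intro x hx y hy he
    exact inj_branch R E (fun y hy => (h y hy).1) (mem_sub.1 hx) (mem_sub.1 hy) he

/-- a branch reaching level `d` cannot be shifted down -/
theorem deep (R : RT T z par lev) (E : Emb T a b K) {d : ℕ} (hlev : ∀ x, lev x ≤ d) {u l : V}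
    (hu : u ≠ z) (hd : E.g u ≠ z ∧ par (E.g u) = E.g (par u)) (hl : Desc z par u l)
    (hll : lev l = d) (hlt : lev u < lev (E.g u)) (hK : ∀ y, Desc z par (E.g u) y → y ∉ K) :
    False := by
  rcases branch R E hu hd with ⟨y, _, h2, h3⟩ | h
  · exact hK _ h3 h2
  · have h1 := (h l hl).2.2.1
    have h2 := hlev (E.g l)
    omega

/-- the image of the root is the root, a turning vertex or above a turning vertex -/
theorem root_image (R : RT T z par lev) (E : Emb T a b K) {d : ℕ} (hlev : ∀ x, lev x ≤ d)
    {e₁ e₂ l₁ l₂ : V} (hne : e₁ ≠ e₂) (h1 : e₁ ≠ z) (h2 : e₂ ≠ z) (h1p : par e₁ = z)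
    (h2p : par e₂ = z) (hl1 : Desc z par e₁ l₁) (hl2 : Desc z par e₂ l₂) (hd1 : lev l₁ = d)
    (hd2 : lev l₂ = d) (hz : E.g z ≠ z)
    (hi : ∀ y, Desc z par (E.g z) y → y ≠ E.g z → y ∉ K) (hii : E.g z ∉ K ∨ par (E.g z) ∈ K) :
    False := by
  have up : ∀ e l, e ≠ z → par e = z → Desc z par e l → lev l = d → E.g e = par (E.g z) := by
    intro e l he hp hl hd
    rcases down_or_up R E he with h | h
    · exfalso
      rw [hp] at h
      have hlz : lev (E.g e) = lev (E.g z) + 1 := by rw [R.lpar _ h.1, h.2]
      have hpos : 1 ≤ lev (E.g z) := by rw [R.lpar _ hz]; omega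
      refine deep R E hlev he (by rw [hp]; exact h) hl hd
        (by rw [R.lev_one he hp]; omega) ?_
      intro y hy
      apply hi y
      · exact (desc_child h.1 h.2).trans hy
      · intro hy'
        have := R.lev_le hy
        rw [hy'] at this
        omega
    · rw [hp] at h
      exact h.2.symm
  have hu1 := up e₁ l₁ h1 h1p hl1 hd1
  have hu2 := up e₂ l₂ h2 h2p hl2 hd2
  rcases hii with hk | hk
  · exact hne (inj_nbr E hk (R.adj_child h1 h1p) (R.adj_child h2 h2p) (by rw [hu1, hu2]))
  · exact hne (inj_K E (by rw [hu1, hu2]) (by rw [hu1]; exact hk))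

/-- the turning lemma -/
theorem turn (R : RT T z par lev) (E : Emb T a b K) {e c : V} (he : e ≠ z)
    (hc : E.g e = c) (hcK : c ∉ K)
    (h1 : ∀ y, Desc z par e y → Desc z par c (E.g y) → E.g y ∉ K)
    (h2 : ∀ y, Desc z par e y → c ≠ z → E.g y ≠ par c) :
    ∀ y, Desc z par e y → E.g y ∉ K ∧ Desc z par c (E.g y) := by
  have key : ∀ y, Desc z par e y → E.g y ∉ K ∧ Desc z par c (E.g y) ∧
      (y = e ∨ (E.g y ≠ z ∧ par (E.g y) = E.g (par y))) := by
    intro y hy
    induction hy with
    | refl => exact ⟨by rw [hc]; exact hcK, by rw [hc]; exact Desc.refl, Or.inl rfl⟩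
    | step x hx hdx ih =>
      obtain ⟨h3, h4, h5⟩ := ih
      have hp : par x ≠ z := hdx.ne_z he
      have h6 : E.g x ≠ z ∧ par (E.g x) = E.g (par x) := by
        rcases h5 with h5 | h5
        · rcases down_or_up R E hx with h | h
          · exact h
          · exfalso
            rw [h5, hc] at h
            exact h2 x (Desc.step x hx hdx) h.1 h.2.symm
        · exact down_step R E hx hp h5 (Or.inl h3)
      have h7 : Desc z par c (E.g x) := Desc.step _ h6.1 (by rw [h6.2]; exact h4)
      exact ⟨h1 x (Desc.step x hx hdx) h7, h7, Or.inr h6⟩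
  intro y hy
  exact ⟨(key y hy).1, (key y hy).2.1⟩

end fin

end Pool.Agent.R489.Wov
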