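import Mathlib
import Pool.Agent.R489.Wov.Base

set_option autoImplicit false
set_option linter.unusedSectionVars false

namespace Pool.Agent.R489.Wov

open Pool.Agent.R68.Wov Finset

/-- the standing assumptions: rooted tree of depth `d`, all embeddings exist -/
structure Ctx {V : Type} [Fintype V] (T : SimpleGraph V) (z : V) (par : V → V) (lev : V → ℕ)
    (d : ℕ) : Prop where
  R : RT T z par lev
  hd : 2 ≤ d
  hlev : ∀ x, lev x ≤ d
  hE : ∀ a b (K : Set V), Adm T a b K → Nonempty (Emb T a b K)

/-- `c` is a child of the root whose branch reaches level `d` -/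
def Deep {V : Type} (z : V) (par : V → V) (lev : V → ℕ) (d : ℕ) (c : V) : Prop :=
  c ≠ z ∧ par c = z ∧ ∃ l, Desc z par c l ∧ lev l = d

section

variable {V : Type} [Fintype V] {T : SimpleGraph V} {z : V} {par : V → V} {lev : V → ℕ} {d : ℕ}

theorem Deep.child (C : Ctx T z par lev d) {c : V} (h : Deep z par lev d c) :
    ∃ x, x ≠ z ∧ par x = c := by
  obtain ⟨h1, h2, l, h3, h4⟩ := h
  have hne : l ≠ c := by
    rintro rfl
    have := C.R.lev_one h1 h2
    have := C.hd
    omega
  obtain ⟨y, h5, h6, _⟩ := exists_child h3 hne
  exact ⟨y, h5, h6⟩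

theorem step1 (C : Ctx T z par lev d) (D : Finset V) (hD : ∀ c, c ∈ D ↔ Deep z par lev d c)
    (h3 : 3 ≤ D.card) : False := by
  classical
  have R := C.R
  have hd2 := C.hd
  have hne : D.Nonempty := by rw [← Finset.card_pos]; omega
  obtain ⟨b, hbD, hbmax⟩ := D.exists_max_image (fun c => (sub z par c).card) hne
  have hx : ∀ c, ∃ x, c ∈ D → (x ≠ z ∧ par x = c) := by
    intro c
    by_cases hc : c ∈ D
    · obtain ⟨x, h1, h2⟩ := Deep.child C ((hD c).1 hc)
      exact ⟨x, fun _ => ⟨h1, h2⟩⟩
    · exact ⟨z, fun h => absurd h hc⟩
  choose xx hxx using hx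
  have hD1 : ∀ c ∈ D, c ≠ z := fun c hc => ((hD c).1 hc).1
  have hD2 : ∀ c ∈ D, par c = z := fun c hc => ((hD c).1 hc).2.1
  have hl1 : ∀ c ∈ D, lev c = 1 := fun c hc => R.lev_one (hD1 c hc) (hD2 c hc)
  have hl2 : ∀ c ∈ D, lev (xx c) = 2 := fun c hc => by
    rw [R.lpar _ (hxx c hc).1, (hxx c hc).2, hl1 c hc]
  set n := (sub z par b).card with hn
  let K : Set V := {y | y = z ∨ y = b ∨ ∃ c, c ∈ D ∧ (sub z par c).card = n ∧ c ≠ b ∧ y = xx c}
  have hzK : z ∈ K := Or.inl rfl
  have hbK : b ∈ K := Or.inr (Or.inl rfl)
  have hxK : ∀ c ∈ D, (sub z par c).card = n → c ≠ b → xx c ∈ K := fun c h1 h2 h3 =>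
    Or.inr (Or.inr ⟨c, h1, h2, h3, rfl⟩)
  have hadm : Adm T z b K := by
    refine ⟨R.adj_child (hD1 b hbD) (hD2 b hbD), ?_, ?_, hzK, hbK, ?_, ?_⟩
    · have : ∃ c ∈ D, c ≠ b := by
        by_contra h
        push Not at h
        have : D ⊆ {b} := fun c hc => Finset.mem_singleton.2 (h c hc)
        have := Finset.card_le_card this
        simp at this
        omega
      obtain ⟨c, hc, hcb⟩ := this
      exact ⟨c, R.adj_child (hD1 c hc) (hD2 c hc), hcb⟩
    · exact ⟨xx b, R.adj_child (hxx b hbD).1 (hxx b hbD).2, (hxx b hbD).1⟩
    · rintro x (rfl | rfl | ⟨c, hc, _, _, rfl⟩) hadj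
      · exact absurd hadj (T.irrefl)
      · rfl
      · exfalso
        rcases R.adj _ _ hadj with h | h
        · exact h.1 rfl
        · rw [(hxx c hc).2] at h
          exact hD1 c hc h.2
    · rintro x (rfl | rfl | ⟨c, hc, _, hcb, rfl⟩) hadj
      · rfl
      · exact absurd hadj (T.irrefl)
      · exfalso
        rcases R.adj _ _ hadj with h | h
        · rw [hD2 b hbD] at h
          exact (hxx c hc).1 h.2.symm
        · rw [(hxx c hc).2] at h
          exact hcb h.2
  obtain ⟨E⟩ := C.hE z b K hadm
  by_cases hv : E.g z = z
  · -- the root is fixed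
    have hclaim : ∀ c ∈ D, (sub z par c).card = n →
        E.g c ∈ D ∧ (sub z par (E.g c)).card = n ∧ E.g c ≠ b ∧
        ∃ y, Desc z par c y ∧ E.g y = xx (E.g c) := by
      intro c hc hcn
      have hcz := hD1 c hc
      have hdown : E.g c ≠ z ∧ par (E.g c) = E.g (par c) := by
        rcases down_or_up R E hcz with h | h
        · exact h
        · rw [hD2 c hc] at h
          exact absurd hv h.1
      have hgp : par (E.g c) = z := by rw [hdown.2, hD2 c hc, hv]
      have hgl : lev (E.g c) = 1 := R.lev_one hdown.1 hgp
      have hgb : E.g c ≠ b := by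
        intro h
        exact E.nab z c (R.adj_child hcz (hD2 c hc)) ⟨hv, h⟩
      rcases branch R E hcz hdown with ⟨y, hy1, hy2, hy3⟩ | h
      · rcases hy2 with h | h | ⟨c', h4, h5, h6, h7⟩
        · exfalso
          rw [h] at hy3
          exact hdown.1 (desc_z hy3)
        · exfalso
          rw [h] at hy3
          exact hgb (R.eq_of_lev hy3 (by rw [hl1 b hbD, hgl])).symm
        · have h8 : Desc z par (E.g c) c' := by
            rw [h7] at hy3
            have := hy3.par_of_ne (by
              intro h
              have h9 := hl2 c' h4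
              rw [h, hgl] at h9
              omega)
            rw [(hxx c' h4).2] at this
            exact this
          have h9 : c' = E.g c := R.eq_of_lev h8 (by rw [hl1 c' h4, hgl])
          subst h9
          exact ⟨h4, h5, h6, y, hy1, h7⟩
      · exfalso
        obtain ⟨l, hl, hll⟩ := ((hD c).1 hc).2.2
        have hgD : E.g c ∈ D := by
          rw [hD]
          refine ⟨hdown.1, hgp, E.g l, (h l hl).2.1, ?_⟩
          have := (h l hl).2.2.1
          rw [hl1 c hc, hgl, hll] at this
          omega
        have h5 := card_le_of R E (u := c) (c := E.g c) (fun y hy => ⟨(h y hy).1, (h y hy).2.1⟩)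
        have h6 := hbmax (E.g c) hgD
        have h7 : (sub z par (E.g c)).card = n := by
          omega
        have h8 := card_lt_of R E (u := c) (c := E.g c) (w := xx (E.g c))
          (fun y hy => ⟨(h y hy).1, (h y hy).2.1⟩)
          (desc_child (hxx _ hgD).1 (hxx _ hgD).2) (hxK _ hgD h7 hgb)
        omega
    have hcard : (D.filter (fun c => (sub z par c).card = n)).card ≤
        ((D.filter (fun c => (sub z par c).card = n)).erase b).card := by
      apply Finset.card_le_card_of_injOn E.g
      · intro c hc
        rw [Finset.mem_coe, Finset.mem_filter] at hc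
        have h := hclaim c hc.1 hc.2
        rw [Finset.mem_coe, Finset.mem_erase, Finset.mem_filter]
        exact ⟨h.2.2.1, h.1, h.2.1⟩
      · intro c hc c' hc' he
        rw [Finset.mem_coe, Finset.mem_filter] at hc hc'
        obtain ⟨h1, h2, h3, y, h4, h5⟩ := hclaim c hc.1 hc.2
        obtain ⟨h1', h2', h3', y', h4', h5'⟩ := hclaim c' hc'.1 hc'.2
        have hyy : y = y' := by
          apply inj_K E
          · rw [h5, h5', he]
          · rw [h5]; exact hxK _ h1 h2 h3
        subst hyy
        exact R.eq_of_common h4 h4' (by rw [hl1 c hc.1, hl1 c' hc'.1])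
    have hbm : b ∈ D.filter (fun c => (sub z par c).card = n) := by
      rw [Finset.mem_filter]; exact ⟨hbD, rfl⟩
    rw [Finset.card_erase_of_mem hbm] at hcard
    have := Finset.card_pos.2 ⟨b, hbm⟩
    omega
  · by_cases hv2 : ∃ c, c ∈ D ∧ (sub z par c).card = n ∧ c ≠ b ∧ (E.g z = xx c ∨ E.g z = c)
    · obtain ⟨c, hc, hcn, hcb, hvc | hvc⟩ := hv2
      · -- the root goes to `xx c`
        have hup : ∀ e ∈ D, E.g e = c := by
          intro e he
          rcases down_or_up R E (hD1 e he) with h | h
          · exfalso
            rw [hD2 e he, hvc] at h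
            obtain ⟨l, hl, hll⟩ := ((hD e).1 he).2.2
            refine deep R E C.hlev (hD1 e he) (by rw [hD2 e he, hvc]; exact h) hl hll ?_ ?_
            · rw [R.lpar _ h.1, h.2, hl1 e he, hl2 c hc]; omega
            · intro y hy hyK
              have h5 := R.lev_le hy
              rw [R.lpar _ h.1, h.2, hl2 c hc] at h5
              rcases hyK with rfl | rfl | ⟨c', h6, _, _, rfl⟩
              · rw [R.lz] at h5; omega
              · rw [hl1 _ hbD] at h5; omega
              · rw [hl2 _ h6] at h5; omega
          · rw [hD2 e he, hvc, (hxx c hc).2] at h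
            exact h.2.symm
        have hex : ∃ e ∈ D, (sub z par e).card = n ∧ ∀ y, Desc z par e y → E.g y ≠ z := by
          by_contra hcon
          push Not at hcon
          obtain ⟨y, hy1, hy2⟩ := hcon b hbD rfl
          obtain ⟨y', hy1', hy2'⟩ := hcon c hc hcn
          have : y = y' := inj_K E (by rw [hy2, hy2']) (by rw [hy2]; exact hzK)
          subst this
          exact hcb (R.eq_of_common hy1' hy1 (by rw [hl1 c hc, hl1 b hbD]))
        obtain ⟨e, he, hen, hez⟩ := hex
        have hcK : c ∉ K := by
          rintro (h | h | ⟨c', h6, _, _, h7⟩)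
          · exact hD1 c hc h
          · exact hcb h
          · have := hl2 c' h6
            rw [← h7, hl1 c hc] at this
            omega
        have ht := turn R E (hD1 e he) (hup e he) hcK (by
          intro y hy hy2 hyK
          have hlev2 : lev z = 0 := R.lz
          rcases hyK with h | h | ⟨c', h6, h7, h8, h9⟩
          · exact hez y hy h
          · rw [h] at hy2
            exact hcb (R.eq_of_lev hy2 (by rw [hl1 b hbD, hl1 c hc])).symm
          · have hcc : c' = c := by
              rw [h9] at hy2
              have h10 := hy2.par_of_ne (by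
                intro h
                have := hl2 c' h6
                rw [h, hl1 c hc] at this
                omega)
              rw [(hxx c' h6).2] at h10
              exact R.eq_of_lev h10 (by rw [hl1 c' h6, hl1 c hc])
            subst hcc
            have h10 : y = z := inj_K E (by rw [h9, hvc]) (by rw [h9]; exact hxK _ h6 h7 h8)
            exact hy.ne_z (hD1 e he) h10) (by
          intro y hy _ h
          rw [hD2 c hc] at h
          exact hez y hy h)
        have h5 := card_lt_of R E ht (desc_child (hxx c hc).1 (hxx c hc).2) (hxK c hc hcn hcb)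
        omega
      · -- the root goes to `c`
        have hmap : ∀ e ∈ D, E.g e = z ∨ E.g e = xx c := by
          intro e he
          rcases down_or_up R E (hD1 e he) with h | h
          · right
            rw [hD2 e he, hvc] at h
            by_contra hcon
            obtain ⟨l, hl, hll⟩ := ((hD e).1 he).2.2
            have hlg : lev (E.g e) = 2 := by rw [R.lpar _ h.1, h.2, hl1 c hc]
            refine deep R E C.hlev (hD1 e he) (by rw [hD2 e he, hvc]; exact h) hl hll ?_ ?_
            · rw [hl1 e he, hlg]; omega
            · intro y hy hyK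
              have h5 := R.lev_le hy
              rw [hlg] at h5
              rcases hyK with rfl | rfl | ⟨c', h6, _, _, rfl⟩
              · rw [R.lz] at h5; omega
              · rw [hl1 _ hbD] at h5; omega
              · have h7 := R.eq_of_lev hy (by rw [hl2 c' h6, hlg])
                have h8 : c' = c := by rw [← (hxx c' h6).2, h7, h.2]
                subst h8
                exact hcon h7.symm
          · left
            rw [hD2 e he, hvc, hD2 c hc] at h
            exact h.2.symm
        have hcard : D.card ≤ ({z, xx c} : Finset V).card := by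
          apply Finset.card_le_card_of_injOn E.g
          · intro e he
            rcases hmap e he with h | h <;> rw [h] <;> simp
          · intro e he e' he' hee
            rcases hmap e he with h | h
            · exact inj_K E hee (by rw [h]; exact hzK)
            · exact inj_K E hee (by rw [h]; exact hxK c hc hcn hcb)
        have := Finset.card_le_two (a := z) (b := xx c)
        omega
    · -- otherwise
      push Not at hv2
      obtain ⟨e₁, h1, e₂, h2, hne12⟩ := Finset.one_lt_card.1 (show 1 < D.card by omega)
      obtain ⟨l₁, hl₁, hll₁⟩ := ((hD e₁).1 h1).2.2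
      obtain ⟨l₂, hl₂, hll₂⟩ := ((hD e₂).1 h2).2.2
      refine root_image R E C.hlev hne12 (hD1 _ h1) (hD1 _ h2) (hD2 _ h1) (hD2 _ h2) hl₁ hl₂
        hll₁ hll₂ hv ?_ ?_
      · rintro y hy hyv (rfl | rfl | ⟨c, h6, h7, h8, rfl⟩)
        · exact hv (desc_z hy)
        · have h5 := hy.par_of_ne hyv
          rw [hD2 _ hbD] at h5
          exact hv (desc_z h5)
        · have h5 := hy.par_of_ne hyv
          rw [(hxx c h6).2] at h5
          have h9 : c ≠ E.g z := fun h => (hv2 c h6 h7 h8).2 h.symm
          have h10 := h5.par_of_ne h9
          rw [hD2 c h6] at h10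
          exact hv (desc_z h10)
      · by_cases hK : E.g z ∈ K
        · right
          rcases hK with h | h | ⟨c, h6, h7, h8, h9⟩
          · exact absurd h hv
          · rw [h, hD2 b hbD]; exact hzK
          · exact absurd h9 (hv2 c h6 h7 h8).1
        · exact Or.inl hK

end

end Pool.Agent.R489.Wov
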