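import Mathlib
import Pool.Agent.R489.Wov.Step1

set_option autoImplicit false
set_option linter.unusedSectionVars false

namespace Pool.Agent.R489.Wov

open Pool.Agent.R68.Wov Finset

section

variable {V : Type} [Fintype V] {T : SimpleGraph V} {z : V} {par : V → V} {d : ℕ}

theorem dist_desc {lev : V → ℕ} (hT : T.IsTree) (R : RT T z par lev) {c x : V}
    (h : Desc z par c x) : T.dist c x + lev c ≤ lev x := by
  induction h with
  | refl => simp
  | step x hx h ih =>
    have h1 : T.dist c x ≤ T.dist c (par x) + T.dist (par x) x :=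
      hT.connected.dist_triangle
    have h2 : T.dist (par x) x ≤ 1 := by
      have := (R.adjpar x hx).symm
      rw [SimpleGraph.dist_eq_one_iff_adj.2 this]
    have h3 := R.lpar x hx
    omega

theorem step0 (hT : T.IsTree) (C : Ctx T z par (T.dist z) d)
    (hmin : ∀ p, ∃ x, d ≤ T.dist p x) (c : V) (hc : Deep z par (T.dist z) d c)
    (huniq : ∀ c', Deep z par (T.dist z) d c' → c' = c) : False := by
  classical
  have R := C.R
  have hd2 := C.hd
  obtain ⟨hcz, hcp, l, hl, hll⟩ := hc
  have hc1 := R.lev_one hcz hcp
  let K : Set V := {y | y = z ∨ y = c}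
  have hzK : z ∈ K := Or.inl rfl
  have hcK : c ∈ K := Or.inr rfl
  have hadm : Adm T z c K := by
    refine ⟨R.adj_child hcz hcp, ?_, ?_, hzK, hcK, ?_, ?_⟩
    · by_contra hcon
      push Not at hcon
      obtain ⟨x, hx⟩ := hmin c
      by_cases hxz : x = z
      · have : T.dist c x ≤ 1 := by
          rw [hxz, SimpleGraph.dist_eq_one_iff_adj.2 (R.adj_child hcz hcp).symm]
        omega
      · obtain ⟨c', h1, h2, h3⟩ := R.exists_top x hxz
        have h4 := hcon c' (R.adj_child h1 h2)
        subst h4
        have := dist_desc hT R h3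
        have := C.hlev x
        omega
    · obtain ⟨y, h1, h2⟩ := Deep.child C ⟨hcz, hcp, l, hl, hll⟩
      exact ⟨y, R.adj_child h1 h2, h1⟩
    · rintro x (rfl | rfl) hadj
      · exact absurd hadj (T.irrefl)
      · rfl
    · rintro x (rfl | rfl) hadj
      · rfl
      · exact absurd hadj (T.irrefl)
  obtain ⟨E⟩ := C.hE z c K hadm
  by_cases hp : ∃ p, E.g p ∈ K
  · obtain ⟨p, hp⟩ := hp
    obtain ⟨parp, Rp⟩ := exists_RT hT p
    have hpp : T.dist p p = 0 := by simp
    rcases hp with hp | hp
    · have key : ∀ x, T.dist z (E.g x) = T.dist p x ∧ ¬ Desc z par c (E.g x) ∧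
          (x ≠ p → E.g x ≠ z ∧ par (E.g x) = E.g (parp x)) := by
        intro x
        have hx := Rp.desc_root x
        induction hx with
        | refl =>
          refine ⟨by rw [hp, hpp]; simp, ?_, fun h => absurd rfl h⟩
          rw [hp]
          intro h
          exact hcz (desc_z h)
        | step x hx _ ih =>
          obtain ⟨h1, h2, h3⟩ := ih
          have hadj := Rp.adjpar x hx
          rcases R.adj _ _ (E.adj _ _ hadj) with h | h
          · refine ⟨?_, ?_, fun _ => h⟩
            · rw [R.lpar _ h.1, h.2, h1, Rp.lpar x hx]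
            · intro h4
              rcases h4.cases' with h5 | h5
              · have h6 : E.g (parp x) = E.g p := by rw [← h.2, h5, hcp, hp]
                have h7 : parp x = p := inj_K E h6 (by rw [h6, hp]; exact hzK)
                rw [h7] at hadj
                exact E.nab p x hadj.symm ⟨hp, h5⟩
              · rw [h.2] at h5
                exact h2 h5.2
          · exfalso
            have hyp : parp x ≠ p := by
              intro h4
              rw [h4, hp] at h
              exact h.1 rfl
            have h4 := h3 hyp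
            have h5 : E.g x = E.g (parp (parp x)) := by rw [← h.2, h4.2]
            have hne : x ≠ parp (parp x) := by
              intro he
              have h6 := Rp.lpar x hx
              have h7 := Rp.lpar _ hyp
              rw [← he] at h7
              omega
            by_cases hk : E.g x ∈ K
            · exact hne (inj_K E h5 hk)
            · have hk' : E.g (parp x) ∉ K := by
                rintro (h6 | h6)
                · exact h.1 h6
                · rw [h6] at h2
                  exact h2 Desc.refl
              exact hne (inj_nbr E hk' hadj.symm (Rp.adjpar _ hyp) h5)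
      obtain ⟨x, hx⟩ := hmin p
      obtain ⟨h1, h2, _⟩ := key x
      have h3 := C.hlev (E.g x)
      have h4 : E.g x ≠ z := by
        intro h
        rw [h] at h1
        simp at h1
        omega
      obtain ⟨c', h5, h6, h7⟩ := R.exists_top _ h4
      have h8 := huniq c' ⟨h5, h6, E.g x, h7, by omega⟩
      rw [h8] at h7
      exact h2 h7
    · have key : ∀ x, T.dist z (E.g x) = 1 + T.dist p x ∧
          (x ≠ p → E.g x ≠ z ∧ par (E.g x) = E.g (parp x)) := by
        intro x
        have hx := Rp.desc_root x
        induction hx with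
        | refl =>
          refine ⟨by rw [hp, hpp, hc1], fun h => absurd rfl h⟩
        | step x hx _ ih =>
          obtain ⟨h1, h3⟩ := ih
          have hadj := Rp.adjpar x hx
          rcases R.adj _ _ (E.adj _ _ hadj) with h | h
          · refine ⟨?_, fun _ => h⟩
            rw [R.lpar _ h.1, h.2, h1, Rp.lpar x hx]
            omega
          · exfalso
            by_cases hyp : parp x = p
            · rw [hyp, hp, hcp] at h
              rw [hyp] at hadj
              exact E.nab x p hadj ⟨h.2.symm, hp⟩
            have h4 := h3 hyp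
            have h5 : E.g x = E.g (parp (parp x)) := by rw [← h.2, h4.2]
            have hne : x ≠ parp (parp x) := by
              intro he
              have h6 := Rp.lpar x hx
              have h7 := Rp.lpar _ hyp
              rw [← he] at h7
              omega
            by_cases hk : E.g x ∈ K
            · exact hne (inj_K E h5 hk)
            · have hk' : E.g (parp x) ∉ K := by
                rintro (h6 | h6)
                · exact h.1 h6
                · rw [h6, hc1] at h1
                  have h7 := Rp.lpar _ hyp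
                  omega
              exact hne (inj_nbr E hk' hadj.symm (Rp.adjpar _ hyp) h5)
      obtain ⟨x, hx⟩ := hmin p
      have h1 := (key x).1
      have h3 := C.hlev (E.g x)
      omega
  · push Not at hp
    have hinj : Function.Injective E.g := fun x y he =>
      inj_branch R E (u := z) (fun y _ => hp y) (R.desc_root x) (R.desc_root y) he
    obtain ⟨p, hp'⟩ := (Finite.injective_iff_surjective.1 hinj) z
    exact hp p (by rw [hp']; exact hzK)

/-- `φ` is an embedding of the branch at `u` into the branch at `v` preserving parents -/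
structure RE (z : V) (par : V → V) (lev : V → ℕ) (u v : V) (φ : V → V) : Prop where
  top : φ u = v
  lev : ∀ y, Desc z par u y → lev (φ y) = lev y
  step : ∀ y, Desc z par u y → y ≠ u → φ y ≠ z ∧ par (φ y) = φ (par y)
  inj : ∀ x y, Desc z par u x → Desc z par u y → φ x = φ y → x = y

variable {lev : V → ℕ}

theorem RE.desc (R : RT T z par lev) {u v : V} {φ : V → V} (h : RE z par lev u v φ) {x y : V}
    (hx : Desc z par u x) (hy : Desc z par x y) : Desc z par (φ x) (φ y) := by
  induction hy with
  | refl => exact Desc.refl
  | step y hy hd ih =>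
    have h1 : Desc z par u y := hx.trans (Desc.step y hy hd)
    have h2 : y ≠ u := by
      rintro rfl
      have h3 := R.lev_le (hx.trans hd)
      have h4 := R.lpar y hy
      omega
    have h3 := h.step y h1 h2
    exact Desc.step _ h3.1 (by rw [h3.2]; exact ih)

theorem RE.card_sub (R : RT T z par lev) {u v : V} {φ : V → V} (h : RE z par lev u v φ) {x : V}
    (hx : Desc z par u x) : (sub z par x).card ≤ (sub z par (φ x)).card := by
  apply Finset.card_le_card_of_injOn φ
  · intro y hy
    exact mem_sub.2 (h.desc R hx (mem_sub.1 hy))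
  · intro y hy y' hy' he
    exact h.inj _ _ (hx.trans (mem_sub.1 hy)) (hx.trans (mem_sub.1 hy')) he

theorem RE.mem_ch (R : RT T z par lev) {u v : V} {φ : V → V} (h : RE z par lev u v φ) {x y : V}
    (hx : Desc z par u x) (hy : y ∈ ch z par x) : φ y ∈ ch z par (φ x) := by
  rw [Pool.Agent.R489.Wov.mem_ch] at hy ⊢
  have h1 : Desc z par u y := hx.trans (desc_child hy.1 hy.2)
  have h2 : y ≠ u := by
    rintro rfl
    have h3 := R.lev_le hx
    have h4 := R.lpar y hy.1
    rw [hy.2] at h4
    omega
  have h3 := h.step y h1 h2
  rw [hy.2] at h3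
  exact h3

theorem RE.card_ch (R : RT T z par lev) {u v : V} {φ : V → V} (h : RE z par lev u v φ) {x : V}
    (hx : Desc z par u x) : (ch z par x).card ≤ (ch z par (φ x)).card := by
  apply Finset.card_le_card_of_injOn φ
  · intro y hy
    exact h.mem_ch R hx hy
  · intro y hy y' hy' he
    have h1 := Pool.Agent.R489.Wov.mem_ch.1 hy
    have h2 := Pool.Agent.R489.Wov.mem_ch.1 hy'
    exact h.inj _ _ (hx.trans (desc_child h1.1 h1.2)) (hx.trans (desc_child h2.1 h2.2)) he

theorem step2 (C : Ctx T z par lev d) {b₁ b₂ : V} (h12 : b₁ ≠ b₂) (h1 : Deep z par lev d b₁)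
    (h2 : Deep z par lev d b₂) (hD : ∀ c, Deep z par lev d c → c = b₁ ∨ c = b₂) :
    ∃ φ, RE z par lev b₁ b₂ φ := by
  classical
  have R := C.R
  have hd2 := C.hd
  let K : Set V := {y | y = z ∨ y = b₁}
  have hzK : z ∈ K := Or.inl rfl
  have hbK : b₁ ∈ K := Or.inr rfl
  have hadm : Adm T z b₁ K := by
    refine ⟨R.adj_child h1.1 h1.2.1, ⟨b₂, R.adj_child h2.1 h2.2.1, h12.symm⟩, ?_, hzK, hbK, ?_, ?_⟩
    · obtain ⟨y, h3, h4⟩ := Deep.child C h1
      exact ⟨y, R.adj_child h3 h4, h3⟩
    · rintro x (rfl | rfl) hadj
      · exact absurd hadj (T.irrefl)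
      · rfl
    · rintro x (rfl | rfl) hadj
      · rfl
      · exact absurd hadj (T.irrefl)
  obtain ⟨E⟩ := C.hE z b₁ K hadm
  have hv : E.g z = z := by
    by_contra hv
    obtain ⟨l₁, hl₁, hll₁⟩ := h1.2.2
    obtain ⟨l₂, hl₂, hll₂⟩ := h2.2.2
    refine root_image R E C.hlev h12 h1.1 h2.1 h1.2.1 h2.2.1 hl₁ hl₂ hll₁ hll₂ hv ?_ ?_
    · rintro y hy hyv (rfl | rfl)
      · exact hv (desc_z hy)
      · have h5 := hy.par_of_ne hyv
        rw [h1.2.1] at h5
        exact hv (desc_z h5)
    · by_cases hK : E.g z ∈ K
      · right
        rcases hK with h | h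
        · exact absurd h hv
        · rw [h, h1.2.1]; exact hzK
      · exact Or.inl hK
  have hdown : E.g b₁ ≠ z ∧ par (E.g b₁) = E.g (par b₁) := by
    rcases down_or_up R E h1.1 with h | h
    · exact h
    · rw [h1.2.1] at h
      exact absurd hv h.1
  have hgp : par (E.g b₁) = z := by rw [hdown.2, h1.2.1, hv]
  have hgl : lev (E.g b₁) = 1 := R.lev_one hdown.1 hgp
  have hb1 : lev b₁ = 1 := R.lev_one h1.1 h1.2.1
  have hgb : E.g b₁ ≠ b₁ := by
    intro h
    exact E.nab z b₁ (R.adj_child h1.1 h1.2.1) ⟨hv, h⟩
  rcases branch R E h1.1 hdown with ⟨y, _, hy2, hy3⟩ | h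
  · exfalso
    rcases hy2 with h | h
    · rw [h] at hy3
      exact hdown.1 (desc_z hy3)
    · rw [h] at hy3
      exact hgb (R.eq_of_lev hy3 (by omega)).symm
  · obtain ⟨l, hl, hll⟩ := h1.2.2
    have hgD : Deep z par lev d (E.g b₁) := by
      refine ⟨hdown.1, hgp, E.g l, (h l hl).2.1, ?_⟩
      have := (h l hl).2.2.1
      omega
    have hg2 : E.g b₁ = b₂ := (hD _ hgD).resolve_left hgb
    refine ⟨E.g, hg2, ?_, ?_, ?_⟩
    · intro y hy
      have := (h y hy).2.2.1
      omega
    · intro y hy _
      exact (h y hy).2.2.2
    · intro x y hx hy he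
      exact inj_branch R E (u := b₁) (fun y hy => (h y hy).1) hx hy he

end

end Pool.Agent.R489.Wov
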