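import Mathlib
import Pool.Agent.R489.Wov.Step2

set_option autoImplicit false
set_option linter.unusedSectionVars false

namespace Pool.Agent.R489.Wov

open Pool.Agent.R68.Wov Finset

section

variable {V : Type} [Fintype V] {T : SimpleGraph V} {z : V} {par : V → V} {lev : V → ℕ} {d : ℕ}

theorem step3 (C : Ctx T z par lev d) {b₁ b₂ : V} (h12 : b₁ ≠ b₂) (h1 : Deep z par lev d b₁)
    (h2 : Deep z par lev d b₂) (hD : ∀ c, Deep z par lev d c → c = b₁ ∨ c = b₂)
    (hs1 : (sub z par b₁).card = (sub z par b₂).card) :
    (ch z par z).card ≤ (ch z par b₂).card + 1 ∧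
    ∃ e, (e = b₁ ∨ e = b₂) ∧ ∀ y ∈ ch z par e, (∃ l, Desc z par y l ∧ lev l = d) →
      (ch z par y).card + 1 ≤ (ch z par b₂).card := by
  classical
  have R := C.R
  have hd2 := C.hd
  obtain ⟨x₂, hx1, hx2⟩ := Deep.child C h2
  have hb1 : lev b₁ = 1 := R.lev_one h1.1 h1.2.1
  have hb2 : lev b₂ = 1 := R.lev_one h2.1 h2.2.1
  have hlx : lev x₂ = 2 := by rw [R.lpar _ hx1, hx2, hb2]
  have hlz := R.lz
  let K : Set V := {y | y = z ∨ y = b₁ ∨ y = x₂}
  have hzK : z ∈ K := Or.inl rfl
  have hbK : b₁ ∈ K := Or.inr (Or.inl rfl)
  have hxK : x₂ ∈ K := Or.inr (Or.inr rfl)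
  have hDeep : ∀ e, (e = b₁ ∨ e = b₂) → Deep z par lev d e := by
    rintro e (rfl | rfl)
    · exact h1
    · exact h2
  have hcard : ∀ e, (e = b₁ ∨ e = b₂) → (sub z par e).card = (sub z par b₂).card := by
    rintro e (rfl | rfl)
    · exact hs1
    · rfl
  have hlev1 : ∀ e, (e = b₁ ∨ e = b₂) → lev e = 1 := by
    rintro e (rfl | rfl)
    · exact hb1
    · exact hb2
  have hadm : Adm T z b₁ K := by
    refine ⟨R.adj_child h1.1 h1.2.1, ⟨b₂, R.adj_child h2.1 h2.2.1, h12.symm⟩, ?_, hzK, hbK, ?_, ?_⟩
    · obtain ⟨y, h3, h4⟩ := Deep.child C h1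
      exact ⟨y, R.adj_child h3 h4, h3⟩
    · rintro x (rfl | rfl | rfl) hadj
      · exact absurd hadj (T.irrefl)
      · rfl
      · exfalso
        rcases R.adj _ _ hadj with h | h
        · exact h.1 rfl
        · rw [hx2] at h
          exact h2.1 h.2
    · rintro x (rfl | rfl | rfl) hadj
      · rfl
      · exact absurd hadj (T.irrefl)
      · exfalso
        rcases R.adj _ _ hadj with h | h
        · rw [h1.2.1] at h
          exact hx1 h.2.symm
        · rw [hx2] at h
          exact h12 h.2.symm
  obtain ⟨E⟩ := C.hE z b₁ K hadm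
  by_cases hv : E.g z = z
  · -- the root is fixed
    exfalso
    have hclaim : ∀ e, (e = b₁ ∨ e = b₂) → ∃ y, Desc z par e y ∧ E.g y = x₂ := by
      intro e he
      have hDe := hDeep e he
      have hdown : E.g e ≠ z ∧ par (E.g e) = E.g (par e) := by
        rcases down_or_up R E hDe.1 with h | h
        · exact h
        · rw [hDe.2.1] at h
          exact absurd hv h.1
      have hgp : par (E.g e) = z := by rw [hdown.2, hDe.2.1, hv]
      have hgl : lev (E.g e) = 1 := R.lev_one hdown.1 hgp
      have hgb : E.g e ≠ b₁ := by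
        intro h
        exact E.nab z e (R.adj_child hDe.1 hDe.2.1) ⟨hv, h⟩
      rcases branch R E hDe.1 hdown with ⟨y, hy1, hy2, hy3⟩ | h
      · rcases hy2 with h | h | h
        · exfalso
          rw [h] at hy3
          exact hdown.1 (desc_z hy3)
        · exfalso
          rw [h] at hy3
          exact hgb (R.eq_of_lev hy3 (by omega)).symm
        · exact ⟨y, hy1, h⟩
      · exfalso
        obtain ⟨l, hl, hll⟩ := hDe.2.2
        have hle := hlev1 e he
        have hgD : Deep z par lev d (E.g e) := by
          refine ⟨hdown.1, hgp, E.g l, (h l hl).2.1, ?_⟩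
          have := (h l hl).2.2.1
          omega
        have hg2 : E.g e = b₂ := (hD _ hgD).resolve_left hgb
        have h8 := card_lt_of R E (u := e) (c := b₂) (w := x₂)
          (fun y hy => ⟨(h y hy).1, by rw [← hg2]; exact (h y hy).2.1⟩)
          (desc_child hx1 hx2) hxK
        have := hcard e he
        omega
    obtain ⟨y₁, hy1, hy1'⟩ := hclaim b₁ (Or.inl rfl)
    obtain ⟨y₂, hy2, hy2'⟩ := hclaim b₂ (Or.inr rfl)
    have : y₁ = y₂ := inj_K E (by rw [hy1', hy2']) (by rw [hy1']; exact hxK)
    subst this
    exact h12 (R.eq_of_common hy1 hy2 (by omega))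
  by_cases hv2 : E.g z = x₂
  · exfalso
    have hup : ∀ e, (e = b₁ ∨ e = b₂) → E.g e = b₂ := by
      intro e he
      have hDe := hDeep e he
      have hle := hlev1 e he
      rcases down_or_up R E hDe.1 with h | h
      · exfalso
        rw [hDe.2.1, hv2] at h
        obtain ⟨l, hl, hll⟩ := hDe.2.2
        have h7 := R.lpar _ h.1
        rw [h.2, hlx] at h7
        refine deep R E C.hlev hDe.1 (by rw [hDe.2.1, hv2]; exact h) hl hll ?_ ?_
        · omega
        · intro y hy hyK
          have h5 := R.lev_le hy
          rcases hyK with rfl | rfl | rfl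
          · omega
          · omega
          · omega
      · rw [hDe.2.1, hv2, hx2] at h
        exact h.2.symm
    have hex : ∃ e, (e = b₁ ∨ e = b₂) ∧ ∀ y, Desc z par e y → E.g y ≠ z := by
      by_contra hcon
      push Not at hcon
      obtain ⟨y, hy1, hy2⟩ := hcon b₁ (Or.inl rfl)
      obtain ⟨y', hy1', hy2'⟩ := hcon b₂ (Or.inr rfl)
      have : y = y' := inj_K E (by rw [hy2, hy2']) (by rw [hy2]; exact hzK)
      subst this
      exact h12 (R.eq_of_common hy1 hy1' (by omega))
    obtain ⟨e, he, hez⟩ := hex
    have hDe := hDeep e he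
    have hcK : b₂ ∉ K := by
      rintro (h | h | h)
      · exact h2.1 h
      · exact h12 h.symm
      · rw [h] at hb2; omega
    have ht := turn R E hDe.1 (hup e he) hcK (by
      intro y hy hy2 hyK
      rcases hyK with h | h | h
      · exact hez y hy h
      · rw [h] at hy2
        exact h12 (R.eq_of_lev hy2 (by omega))
      · have h10 : y = z := inj_K E (by rw [h, hv2]) (by rw [h]; exact hxK)
        exact hy.ne_z hDe.1 h10) (by
      intro y hy _ h
      rw [h2.2.1] at h
      exact hez y hy h)
    have h5 := card_lt_of R E ht (desc_child hx1 hx2) hxK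
    have := hcard e he
    omega
  by_cases hv3 : E.g z = b₂
  · have hcK : b₂ ∉ K := by
      rintro (h | h | h)
      · exact h2.1 h
      · exact h12 h.symm
      · rw [h] at hb2; omega
    refine ⟨?_, ?_⟩
    · have : (ch z par z).card ≤ (insert z (ch z par b₂)).card := by
        apply Finset.card_le_card_of_injOn E.g
        · intro x hx
          have hx' := mem_ch.1 hx
          have hadj := E.adj _ _ (R.adj_child hx'.1 hx'.2)
          rw [hv3] at hadj
          rw [Finset.mem_coe, Finset.mem_insert]
          rcases R.adj _ _ hadj with h | h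
          · left
            rw [← h.2, h2.2.1]
          · right
            exact mem_ch.2 h
        · intro x hx y hy he
          have hx' := mem_ch.1 hx
          have hy' := mem_ch.1 hy
          exact inj_nbr E (p := z) (by rw [hv3]; exact hcK) (R.adj_child hx'.1 hx'.2)
            (R.adj_child hy'.1 hy'.2) he
      exact this.trans (Finset.card_insert_le _ _)
    · have hmap : ∀ e, (e = b₁ ∨ e = b₂) → E.g e = z ∨ E.g e = x₂ := by
        intro e he
        have hDe := hDeep e he
        have hle := hlev1 e he
        rcases down_or_up R E hDe.1 with h | h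
        · right
          rw [hDe.2.1, hv3] at h
          by_contra hcon
          obtain ⟨l, hl, hll⟩ := hDe.2.2
          have h7 := R.lpar _ h.1
          rw [h.2, hb2] at h7
          refine deep R E C.hlev hDe.1 (by rw [hDe.2.1, hv3]; exact h) hl hll ?_ ?_
          · omega
          · intro y hy hyK
            have h5 := R.lev_le hy
            rcases hyK with rfl | rfl | rfl
            · omega
            · omega
            · exact hcon (R.eq_of_lev hy (by omega)).symm
        · left
          rw [hDe.2.1, hv3, h2.2.1] at h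
          exact h.2.symm
      have hex : ∃ e e', (e = b₁ ∨ e = b₂) ∧ (e' = b₁ ∨ e' = b₂) ∧ E.g e = x₂ ∧ E.g e' = z := by
        rcases hmap b₁ (Or.inl rfl) with ha | ha <;> rcases hmap b₂ (Or.inr rfl) with hb | hb
        · exact absurd (inj_K E (by rw [ha, hb]) (by rw [ha]; exact hzK)) h12
        · exact ⟨b₂, b₁, Or.inr rfl, Or.inl rfl, hb, ha⟩
        · exact ⟨b₁, b₂, Or.inl rfl, Or.inr rfl, ha, hb⟩
        · exact absurd (inj_K E (by rw [ha, hb]) (by rw [ha]; exact hxK)) h12
      obtain ⟨e, e', he, he', hge, hge'⟩ := hex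
      refine ⟨e, he, ?_⟩
      intro y hy hreach
      have hy' := mem_ch.1 hy
      have hle := hlev1 e he
      have hle' := hlev1 e' he'
      have hly : lev y = 2 := by rw [R.lpar _ hy'.1, hy'.2, hle]
      obtain ⟨l, hl, hll⟩ := hreach
      have hgy : E.g y = b₂ := by
        rcases down_or_up R E hy'.1 with h | h
        · exfalso
          rw [hy'.2, hge] at h
          have h7 := R.lpar _ h.1
          rw [h.2, hlx] at h7
          refine deep R E C.hlev hy'.1 (by rw [hy'.2, hge]; exact h) hl hll ?_ ?_
          · omega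
          · intro w hw hwK
            have h5 := R.lev_le hw
            rcases hwK with rfl | rfl | rfl
            · omega
            · omega
            · omega
        · rw [hy'.2, hge, hx2] at h
          exact h.2.symm
      have hcc : (ch z par y).card ≤ ((ch z par b₂).erase x₂).card := by
        apply Finset.card_le_card_of_injOn E.g
        · intro x hx
          have hx' := mem_ch.1 hx
          have hlxx : lev x = 3 := by rw [R.lpar _ hx'.1, hx'.2, hly]
          have hadj := E.adj _ _ (R.adj_child hx'.1 hx'.2)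
          rw [hgy] at hadj
          rw [Finset.mem_coe, Finset.mem_erase]
          rcases R.adj _ _ hadj with h | h
          · exfalso
            rw [h2.2.1] at h
            have h9 : x = e' := inj_K E (by rw [← h.2, hge']) (by rw [← h.2]; exact hzK)
            rw [h9] at hlxx
            omega
          · refine ⟨?_, mem_ch.2 h⟩
            intro h8
            have h9 : x = e := inj_K E (by rw [h8, hge]) (by rw [h8]; exact hxK)
            rw [h9] at hlxx
            omega
        · intro x hx w hw hxw
          have hx' := mem_ch.1 hx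
          have hw' := mem_ch.1 hw
          exact inj_nbr E (p := y) (by rw [hgy]; exact hcK) (R.adj_child hx'.1 hx'.2)
            (R.adj_child hw'.1 hw'.2) hxw
      have hxm : x₂ ∈ ch z par b₂ := mem_ch.2 ⟨hx1, hx2⟩
      rw [Finset.card_erase_of_mem hxm] at hcc
      have := Finset.card_pos.2 ⟨x₂, hxm⟩
      omega
  · exfalso
    obtain ⟨l₁, hl₁, hll₁⟩ := h1.2.2
    obtain ⟨l₂, hl₂, hll₂⟩ := h2.2.2
    refine root_image R E C.hlev h12 h1.1 h2.1 h1.2.1 h2.2.1 hl₁ hl₂ hll₁ hll₂ hv ?_ ?_
    · rintro y hy hyv (rfl | rfl | rfl)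
      · exact hv (desc_z hy)
      · have h5 := hy.par_of_ne hyv
        rw [h1.2.1] at h5
        exact hv (desc_z h5)
      · have h5 := hy.par_of_ne hyv
        rw [hx2] at h5
        have h6 := h5.par_of_ne (fun h => hv3 h.symm)
        rw [h2.2.1] at h6
        exact hv (desc_z h6)
    · by_cases hK : E.g z ∈ K
      · right
        rcases hK with h | h | h
        · exact absurd h hv
        · rw [h, h1.2.1]; exact hzK
        · exact absurd h hv2
      · exact Or.inl hK

end

end Pool.Agent.R489.Wov
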