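import Mathlib
import Pool.Agent.R489.Wov.Step3

set_option autoImplicit false
set_option linter.unusedSectionVars false

namespace Pool.Agent.R489.Wov

open Pool.Agent.R68.Wov Finset

section

variable {V : Type} [Fintype V] {T : SimpleGraph V} {z : V} {par : V → V} {lev : V → ℕ} {d : ℕ}

theorem step4 (C : Ctx T z par lev d) (hd3 : 3 ≤ d) {b₁ b₂ : V} (h12 : b₁ ≠ b₂)
    (h1 : Deep z par lev d b₁)
    (h2 : Deep z par lev d b₂) (hD : ∀ c, Deep z par lev d c → c = b₁ ∨ c = b₂)
    (s : ℕ) (hs1 : (ch z par b₁).card = s) (hs2 : (ch z par b₂).card = s)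
    (F3 : (ch z par z).card ≤ s + 1)
    (F4 : ∀ y ∈ ch z par b₁, (∃ l, Desc z par y l ∧ lev l = d) → (ch z par y).card + 1 ≤ s)
    {φ : V → V} (hφ : RE z par lev b₁ b₂ φ) : False := by
  classical
  have R := C.R
  have hb1 : lev b₁ = 1 := R.lev_one h1.1 h1.2.1
  have hb2 : lev b₂ = 1 := R.lev_one h2.1 h2.2.1
  have hlz := R.lz
  -- the children of `b₁` reaching level `d`
  set P : Finset V := (ch z par b₁).filter (fun y => ∃ l, Desc z par y l ∧ lev l = d) with hP
  have hPmem : ∀ y, y ∈ P ↔ (y ≠ z ∧ par y = b₁) ∧ ∃ l, Desc z par y l ∧ lev l = d := by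
    intro y
    rw [hP, Finset.mem_filter, mem_ch]
  have hPne : P.Nonempty := by
    obtain ⟨l, hl, hll⟩ := h1.2.2
    obtain ⟨y, h3, h4, h5⟩ := exists_child hl (by rintro rfl; omega)
    exact ⟨y, (hPmem y).2 ⟨⟨h3, h4⟩, l, h5, hll⟩⟩
  obtain ⟨x₁, hx1P, hx1max⟩ := P.exists_max_image (fun c => (sub z par c).card) hPne
  set n := (sub z par x₁).card with hn
  have hPlev : ∀ y ∈ P, lev y = 2 := by
    intro y hy
    have h3 := ((hPmem y).1 hy).1
    rw [R.lpar _ h3.1, h3.2, hb1]
  have hw : ∀ y, ∃ w, y ∈ P → (w ≠ z ∧ par w = y) := by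
    intro y
    by_cases hy : y ∈ P
    · obtain ⟨h3, l, hl, hll⟩ := (hPmem y).1 hy
      have := hPlev y hy
      obtain ⟨w, h4, h5, _⟩ := exists_child hl (by rintro rfl; omega)
      exact ⟨w, fun _ => ⟨h4, h5⟩⟩
    · exact ⟨z, fun h => absurd h hy⟩
  choose w hw using hw
  have hwlev : ∀ y ∈ P, lev (w y) = 3 := by
    intro y hy
    rw [R.lpar _ (hw y hy).1, (hw y hy).2, hPlev y hy]
  have hx1 := ((hPmem x₁).1 hx1P).1
  have hx1l := hPlev x₁ hx1P
  let K : Set V := {y | y = x₁ ∨ (y ≠ z ∧ par y = z) ∨
    ∃ u, u ∈ P ∧ (sub z par u).card = n ∧ u ≠ x₁ ∧ y = w u}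
  have hxK : x₁ ∈ K := Or.inl rfl
  have hcK : ∀ y, y ≠ z → par y = z → y ∈ K := fun y h3 h4 => Or.inr (Or.inl ⟨h3, h4⟩)
  have hwK : ∀ u ∈ P, (sub z par u).card = n → u ≠ x₁ → w u ∈ K := fun u h3 h4 h5 =>
    Or.inr (Or.inr ⟨u, h3, h4, h5, rfl⟩)
  have hzK : z ∉ K := by
    rintro (h | h | ⟨u, h3, _, _, h4⟩)
    · exact hx1.1 h.symm
    · exact h.1 rfl
    · exact (hw u h3).1 h4.symm
  have hKlev : ∀ y ∈ K, 1 ≤ lev y ∧ lev y ≤ 3 := by
    rintro y (rfl | h | ⟨u, h3, _, _, rfl⟩)
    · omega
    · have := R.lev_one h.1 h.2; omega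
    · have := hwlev u h3; omega
  have hadm : Adm T b₁ x₁ K := by
    refine ⟨R.adj_child hx1.1 hx1.2, ?_, ?_, hcK _ h1.1 h1.2.1, hxK, ?_, ?_⟩
    · exact ⟨z, (R.adj_child h1.1 h1.2.1).symm, hx1.1.symm⟩
    · refine ⟨w x₁, R.adj_child (hw x₁ hx1P).1 (hw x₁ hx1P).2, ?_⟩
      intro h
      have := hwlev x₁ hx1P
      rw [h] at this
      omega
    · rintro x (rfl | h | ⟨u, h3, _, _, rfl⟩) hadj
      · rfl
      · exfalso
        rcases R.adj _ _ hadj with h4 | h4
        · rw [h1.2.1] at h4
          exact h.1 h4.2.symm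
        · rw [h.2] at h4
          exact h1.1 h4.2.symm
      · exfalso
        have h5 := hwlev u h3
        rcases R.adj _ _ hadj with h4 | h4
        · rw [h1.2.1] at h4
          exact (hw u h3).1 h4.2.symm
        · have h6 := hPlev u h3
          rw [(hw u h3).2] at h4
          rw [h4.2] at h6
          omega
    · rintro x (rfl | h | ⟨u, h3, _, h7, rfl⟩) hadj
      · exact absurd hadj (T.irrefl)
      · rcases R.adj _ _ hadj with h4 | h4
        · rw [hx1.2] at h4
          exact h4.2.symm
        · exfalso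
          rw [h.2] at h4
          exact hx1.1 h4.2.symm
      · exfalso
        have h5 := hwlev u h3
        rcases R.adj _ _ hadj with h4 | h4
        · rw [hx1.2] at h4
          rw [← h4.2] at h5
          omega
        · rw [(hw u h3).2] at h4
          exact h7 h4.2
  obtain ⟨E⟩ := C.hE b₁ x₁ K hadm
  have hDeep : ∀ e, (e = b₁ ∨ e = b₂) → Deep z par lev d e := by
    rintro e (rfl | rfl)
    · exact h1
    · exact h2
  have hlev1 : ∀ e, (e = b₁ ∨ e = b₂) → lev e = 1 := by
    rintro e (rfl | rfl)
    · exact hb1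
    · exact hb2
  have hch : ∀ e, (e = b₁ ∨ e = b₂) → (ch z par e).card = s := by
    rintro e (rfl | rfl)
    · exact hs1
    · exact hs2
  have hspos : 1 ≤ s := by
    have h5 : x₁ ∈ ch z par b₁ := mem_ch.2 hx1
    have := Finset.card_pos.2 ⟨x₁, h5⟩
    omega
  -- members of `K` in a branch of level two
  have hK2 : ∀ v, lev v = 2 → ∀ y, Desc z par v y → y ∈ K → v = x₁ ∨
      (v ∈ P ∧ (sub z par v).card = n ∧ v ≠ x₁ ∧ y = w v) := by
    rintro v hv y hy (rfl | h | ⟨u, h3, h4, h5, rfl⟩)
    · left
      exact (R.eq_of_lev hy (by omega)).symm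
    · exfalso
      have := R.lev_le hy
      have := R.lev_one h.1 h.2
      omega
    · right
      have h6 := hy.par_of_ne (by
        intro h
        have := hwlev u h3
        rw [h] at this
        omega)
      rw [(hw u h3).2] at h6
      have h7 := R.eq_of_lev h6 (by have := hPlev u h3; omega)
      subst h7
      exact ⟨h3, h4, h5, rfl⟩
  -- two images going up to the root are impossible
  have hboth : ∀ v, v ≠ z → par v = z → E.g z = v → E.g b₁ = z → E.g b₂ = z → False := by
    intro v hvz hvp hgz hg1 hg2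
    have hc : (ch z par b₁ ∪ ch z par b₂).card ≤ ((ch z par z).erase v).card := by
      have hm : ∀ x ∈ ch z par b₁ ∪ ch z par b₂, E.g x ∈ (ch z par z).erase v := by
        intro x hx
        have hx' : x ≠ z ∧ T.Adj (par x) x ∧ E.g (par x) = z := by
          rcases Finset.mem_union.1 hx with h | h
          · have h' := mem_ch.1 h
            exact ⟨h'.1, R.adj_child h'.1 rfl, by rw [h'.2, hg1]⟩
          · have h' := mem_ch.1 h
            exact ⟨h'.1, R.adj_child h'.1 rfl, by rw [h'.2, hg2]⟩
        have hadj := E.adj _ _ hx'.2.1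
        rw [hx'.2.2] at hadj
        rw [Finset.mem_erase]
        rcases R.adj _ _ hadj with h | h
        · exact absurd rfl h.1
        · refine ⟨?_, mem_ch.2 h⟩
          intro h5
          exact hx'.1 (inj_K E (by rw [h5, hgz]) (by rw [h5]; exact hcK v hvz hvp))
      apply Finset.card_le_card_of_injOn E.g
      · intro x hx
        exact hm x hx
      · intro x hx y hy hxy
        have h5 := mem_ch.1 (Finset.mem_of_mem_erase (hm x hx))
        exact inj_K E hxy (hcK _ h5.1 h5.2)
    have hdisj : Disjoint (ch z par b₁) (ch z par b₂) := by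
      rw [Finset.disjoint_left]
      intro x hx hy
      exact h12 ((mem_ch.1 hx).2.symm.trans (mem_ch.1 hy).2)
    rw [Finset.card_union_of_disjoint hdisj, Finset.card_erase_of_mem (mem_ch.2 ⟨hvz, hvp⟩),
      hs1, hs2] at hc
    omega
  by_cases hv : E.g z = z
  · -- the root is fixed
    have hchz : ∀ c ∈ ch z par z, E.g c ∈ ch z par z := by
      intro c hc
      have hc' := mem_ch.1 hc
      have hadj := E.adj _ _ (R.adj_child hc'.1 hc'.2)
      rw [hv] at hadj
      rcases R.adj _ _ hadj with h | h
      · exact absurd rfl h.1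
      · exact mem_ch.2 h
    have hinjz : Set.InjOn E.g (ch z par z) := by
      intro c hc c' _ he
      have h5 := mem_ch.1 (hchz c hc)
      exact inj_K E he (hcK _ h5.1 h5.2)
    have hsurj : ∀ c' ∈ ch z par z, ∃ c ∈ ch z par z, E.g c = c' := by
      intro c' hc'
      have := Finset.surjOn_of_injOn_of_card_le (s := ch z par z) (t := ch z par z) E.g
        (fun c hc => hchz c hc) hinjz le_rfl
      obtain ⟨c, hc, h⟩ := this hc'
      exact ⟨c, hc, h⟩
    have honly : ∀ x, E.g x ∈ ch z par z → x ∈ ch z par z := by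
      intro x hx
      obtain ⟨c, hc, h⟩ := hsurj _ hx
      have h5 := mem_ch.1 hx
      have h6 : x = c := inj_K E h.symm (hcK _ h5.1 h5.2)
      rw [h6]
      exact hc
    -- vertices of level two having a child go down
    have hdown2 : ∀ y x, lev y = 2 → x ≠ z → par x = y → E.g y ≠ z ∧ par (E.g y) = E.g (par y) := by
      intro y x hy hx hxy
      have hyz : y ≠ z := by rintro rfl; omega
      have hpy : par y ∈ ch z par z := by
        have h5 := R.lpar y hyz
        have h6 : par y ≠ z := by intro h; rw [h] at h5; omega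
        refine mem_ch.2 ⟨h6, ?_⟩
        by_contra h7
        have h8 := R.lpar _ h6
        have h9 := R.lpar _ h7
        omega
      rcases down_or_up R E hyz with h | h
      · exact h
      · exfalso
        have h7 := mem_ch.1 (hchz _ hpy)
        rw [h7.2] at h
        have hadj := E.adj _ _ (R.adj_child hx hxy)
        rw [← h.2] at hadj
        have h8 : E.g x ∈ ch z par z := by
          rcases R.adj _ _ hadj with h | h
          · exact absurd rfl h.1
          · exact mem_ch.2 h
        have h9 := mem_ch.1 (honly x h8)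
        have h10 := R.lpar x hx
        rw [hxy, hy] at h10
        have h11 := R.lev_one h9.1 h9.2
        omega
    have hg12 : ∀ e, (e = b₁ ∨ e = b₂) → E.g e = b₁ ∨ E.g e = b₂ := by
      intro e he
      have hDe := hDeep e he
      have hle := hlev1 e he
      by_cases heb : E.g e = b₁
      · exact Or.inl heb
      · obtain ⟨l, hl, hll⟩ := hDe.2.2
        obtain ⟨y, h5, h6, h7⟩ := exists_child hl (by rintro rfl; omega)
        have hly : lev y = 2 := by rw [R.lpar _ h5, h6, hle]
        obtain ⟨x, h8, h9, _⟩ := exists_child h7 (by rintro rfl; omega)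
        have hdn := hdown2 y x hly h8 h9
        have hge := mem_ch.1 (hchz e (mem_ch.2 ⟨hDe.1, hDe.2.1⟩))
        have hlge := R.lev_one hge.1 hge.2
        have hlgy : lev (E.g y) = 2 := by rw [R.lpar _ hdn.1, hdn.2, h6, hlge]
        rcases branch R E h5 hdn with ⟨y', _, hy2, hy3⟩ | h
        · exfalso
          rcases hK2 _ hlgy _ hy3 hy2 with h | h
          · apply heb
            rw [← h6, ← hdn.2, h, hx1.2]
          · have h10 := ((hPmem _).1 h.1).1.2
            apply heb
            rw [← h6, ← hdn.2, h10]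
        · apply hD
          have h10 := h l h7
          refine ⟨hge.1, hge.2, E.g l, ?_, by omega⟩
          refine (desc_child hdn.1 ?_).trans h10.2.1
          rw [hdn.2, h6]
    have hex : ∃ e, (e = b₁ ∨ e = b₂) ∧ E.g e = b₁ := by
      rcases hg12 b₁ (Or.inl rfl) with ha | ha
      · exact ⟨b₁, Or.inl rfl, ha⟩
      · rcases hg12 b₂ (Or.inr rfl) with hb | hb
        · exact ⟨b₂, Or.inr rfl, hb⟩
        · exact absurd (inj_K E (by rw [ha, hb]) (by rw [ha]; exact hcK _ h2.1 h2.2.1)) h12
    obtain ⟨e, he, hge⟩ := hex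
    have hDe := hDeep e he
    have hle := hlev1 e he
    set S : Finset V := (ch z par e).filter
      (fun y => (∃ l, Desc z par y l ∧ lev l = d) ∧ n ≤ (sub z par y).card) with hS
    set R' : Finset V := P.filter (fun y => (sub z par y).card = n ∧ y ≠ x₁) with hR'
    have hcard1 : (insert x₁ R').card ≤ S.card := by
      rcases he with rfl | rfl
      · apply Finset.card_le_card
        intro y hy
        rw [Finset.mem_insert] at hy
        rw [hS, Finset.mem_filter]
        rcases hy with rfl | hy
        · have h5 := (hPmem y).1 hx1P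
          exact ⟨mem_ch.2 h5.1, h5.2, le_rfl⟩
        · rw [hR', Finset.mem_filter] at hy
          have h5 := (hPmem y).1 hy.1
          exact ⟨mem_ch.2 h5.1, h5.2, hy.2.1.ge⟩
      · have hmem : ∀ y ∈ insert x₁ R', y ∈ P ∧ n ≤ (sub z par y).card := by
          intro y hy
          rw [Finset.mem_insert] at hy
          rcases hy with rfl | hy
          · exact ⟨hx1P, le_rfl⟩
          · rw [hR', Finset.mem_filter] at hy
            exact ⟨hy.1, hy.2.1.ge⟩
        have hdb : ∀ y ∈ P, Desc z par b₁ y := fun y hy =>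
          desc_child ((hPmem y).1 hy).1.1 ((hPmem y).1 hy).1.2
        apply Finset.card_le_card_of_injOn φ
        · intro y hy
          have h5 := hmem y hy
          have h6 := (hPmem y).1 h5.1
          rw [Finset.mem_coe, hS, Finset.mem_filter]
          obtain ⟨l, hl, hll⟩ := h6.2
          refine ⟨?_, ⟨φ l, hφ.desc R (hdb y h5.1) hl, ?_⟩, ?_⟩
          · have := hφ.mem_ch R Desc.refl (mem_ch.2 h6.1)
            rw [hφ.top] at this
            exact this
          · rw [hφ.lev l ((hdb y h5.1).trans hl), hll]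
          · exact h5.2.trans (hφ.card_sub R (hdb y h5.1))
        · intro y hy y' hy' hyy
          exact hφ.inj _ _ (hdb y (hmem y hy).1) (hdb y' (hmem y' hy').1) hyy
    have hclaim : ∀ y ∈ S, E.g y ∈ R' ∧ ∃ y', Desc z par y y' ∧ E.g y' = w (E.g y) := by
      intro y hy
      rw [hS, Finset.mem_filter] at hy
      obtain ⟨hy1, ⟨l, hl, hll⟩, hy3⟩ := hy
      have hy1' := mem_ch.1 hy1
      have hly : lev y = 2 := by rw [R.lpar _ hy1'.1, hy1'.2, hle]
      obtain ⟨x, h8, h9, _⟩ := exists_child hl (by rintro rfl; omega)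
      have hdn := hdown2 y x hly h8 h9
      have hpg : par (E.g y) = b₁ := by rw [hdn.2, hy1'.2, hge]
      have hlgy : lev (E.g y) = 2 := by rw [R.lpar _ hdn.1, hpg, hb1]
      have hgx : E.g y ≠ x₁ := by
        intro h
        exact E.nab e y (R.adj_child hy1'.1 hy1'.2) ⟨hge, h⟩
      rcases branch R E hy1'.1 hdn with ⟨y', hy'1, hy'2, hy'3⟩ | h
      · rcases hK2 _ hlgy _ hy'3 hy'2 with h | h
        · exact absurd h hgx
        · refine ⟨?_, y', hy'1, h.2.2.2⟩
          rw [hR', Finset.mem_filter]
          exact ⟨h.1, h.2.1, h.2.2.1⟩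
      · exfalso
        have h10 := h l hl
        have hgP : E.g y ∈ P := by
          rw [hPmem]
          exact ⟨⟨hdn.1, hpg⟩, E.g l, h10.2.1, by omega⟩
        have h11 := card_le_of R E (u := y) (c := E.g y)
          (fun y hy => ⟨(h y hy).1, (h y hy).2.1⟩)
        have h12 := hx1max (E.g y) hgP
        have h13 : (sub z par (E.g y)).card = n := by omega
        have h14 := card_lt_of R E (u := y) (c := E.g y) (w := w (E.g y))
          (fun y hy => ⟨(h y hy).1, (h y hy).2.1⟩)
          (desc_child (hw _ hgP).1 (hw _ hgP).2) (hwK _ hgP h13 hgx)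
        omega
    have hcard2 : S.card ≤ R'.card := by
      apply Finset.card_le_card_of_injOn E.g
      · intro y hy
        exact (hclaim y hy).1
      · intro y hy y₂ hy₂ hyy
        obtain ⟨h5, y', h6, h7⟩ := hclaim y hy
        obtain ⟨h5', y₂', h6', h7'⟩ := hclaim y₂ hy₂
        have h8 : y' = y₂' := by
          apply inj_K E
          · rw [h7, h7', hyy]
          · rw [h7]
            rw [hR', Finset.mem_filter] at h5
            exact hwK _ h5.1 h5.2.1 h5.2.2
        subst h8
        rw [Finset.mem_coe, hS, Finset.mem_filter] at hy hy₂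
        have h9 := mem_ch.1 hy.1
        have h10 := mem_ch.1 hy₂.1
        exact R.eq_of_common h6 h6' (by rw [R.lpar _ h9.1, R.lpar _ h10.1, h9.2, h10.2])
    have hnot : x₁ ∉ R' := by
      rw [hR', Finset.mem_filter]
      exact fun h => h.2.2 rfl
    rw [Finset.card_insert_of_notMem hnot] at hcard1
    omega
  by_cases hv2 : par (E.g z) = z
  · -- the root goes to level one
    have hlv : lev (E.g z) = 1 := R.lev_one hv hv2
    have hvK : E.g z ∈ K := hcK _ hv hv2
    by_cases hup : E.g b₁ = z ∧ E.g b₂ = z
    · exact hboth _ hv hv2 rfl hup.1 hup.2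
    · have hex : ∃ e, (e = b₁ ∨ e = b₂) ∧ E.g e ≠ z := by
        by_contra hcon
        push Not at hcon
        exact hup ⟨hcon b₁ (Or.inl rfl), hcon b₂ (Or.inr rfl)⟩
      obtain ⟨e, he, hez⟩ := hex
      have hDe := hDeep e he
      have hle := hlev1 e he
      have hdn : E.g e ≠ z ∧ par (E.g e) = E.g (par e) := by
        rcases down_or_up R E hDe.1 with h | h
        · exact h
        · exfalso
          rw [hDe.2.1, hv2] at h
          exact hez h.2.symm
      have hpe : par (E.g e) = E.g z := by rw [hdn.2, hDe.2.1]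
      have hlge : lev (E.g e) = 2 := by rw [R.lpar _ hdn.1, hpe, hlv]
      obtain ⟨l, hl, hll⟩ := hDe.2.2
      have hnodeep : ¬ ∀ y, Desc z par (E.g e) y → y ∉ K := by
        intro h
        exact deep R E C.hlev hDe.1 hdn hl hll (by omega) h
      push Not at hnodeep
      obtain ⟨y, hy, hyK⟩ := hnodeep
      rcases hK2 _ hlge _ hy hyK with h | h
      · have h5 : E.g z = b₁ := by rw [← hpe, h, hx1.2]
        exact E.nab z e (R.adj_child hDe.1 hDe.2.1) ⟨h5, h⟩
      · have hPe := (hPmem _).1 h.1
        have h5 : E.g z = b₁ := by rw [← hpe, hPe.1.2]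
        have hnK : E.g e ∉ K := by
          rintro (h6 | h6 | ⟨u, h6, _, _, h7⟩)
          · exact h.2.2.1 h6
          · have := R.lev_one h6.1 h6.2
            omega
          · have := hwlev u h6
            rw [← h7] at this
            omega
        have hcc : (ch z par e).card ≤ (ch z par (E.g e)).card := by
          apply Finset.card_le_card_of_injOn E.g
          · intro x hx
            have hx' := mem_ch.1 hx
            have hadj := E.adj _ _ (R.adj_child hx'.1 hx'.2)
            rcases R.adj _ _ hadj with h6 | h6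
            · exfalso
              have h7 : x = z := inj_K E (by rw [← h6.2, hpe]) (by rw [← h6.2, hpe]; exact hvK)
              exact hx'.1 h7
            · exact mem_ch.2 h6
          · intro x hx x' hx' hxx
            have h6 := mem_ch.1 hx
            have h7 := mem_ch.1 hx'
            exact inj_nbr E hnK (R.adj_child h6.1 h6.2) (R.adj_child h7.1 h7.2) hxx
        have h8 := F4 (E.g e) (mem_ch.2 hPe.1) hPe.2
        have h9 := hch e he
        omega
  by_cases hv3 : ∃ y, y ∈ P ∧ (sub z par y).card = n ∧ y ≠ x₁ ∧ (E.g z = w y ∨ E.g z = y)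
  · obtain ⟨y, hyP, hyn, hyx, hvy | hvy⟩ := hv3
    · -- the root goes to `w y`
      have hup : ∀ e, (e = b₁ ∨ e = b₂) → E.g e = y := by
        intro e he
        have hDe := hDeep e he
        have hle := hlev1 e he
        rcases down_or_up R E hDe.1 with h | h
        · exfalso
          have hpe : par (E.g e) = w y := by rw [h.2, hDe.2.1, hvy]
          have hlge : lev (E.g e) = 4 := by rw [R.lpar _ h.1, hpe, hwlev y hyP]
          obtain ⟨l, hl, hll⟩ := hDe.2.2
          refine deep R E C.hlev hDe.1 h hl hll (by omega) ?_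
          intro x hx hxK
          have := R.lev_le hx
          have := (hKlev x hxK).2
          omega
        · rw [hDe.2.1, hvy, (hw y hyP).2] at h
          exact h.2.symm
      have hyK : y ∉ K := by
        rintro (h6 | h6 | ⟨u, h6, _, _, h7⟩)
        · exact hyx h6
        · have := R.lev_one h6.1 h6.2
          have := hPlev y hyP
          omega
        · have h8 := hwlev u h6
          rw [← h7, hPlev y hyP] at h8
          omega
      have hyp := ((hPmem y).1 hyP)
      have hwm : w y ∈ ch z par y := mem_ch.2 (hw y hyP)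
      have hcc : (ch z par b₁).card ≤ (insert b₁ ((ch z par y).erase (w y))).card := by
        apply Finset.card_le_card_of_injOn E.g
        · intro x hx
          have hx' := mem_ch.1 hx
          have hadj := E.adj _ _ (R.adj_child hx'.1 hx'.2)
          rw [hup b₁ (Or.inl rfl)] at hadj
          rw [Finset.mem_coe, Finset.mem_insert, Finset.mem_erase]
          rcases R.adj _ _ hadj with h6 | h6
          · left
            rw [← h6.2, hyp.1.2]
          · right
            refine ⟨?_, mem_ch.2 h6⟩
            intro h7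
            exact hx'.1 (inj_K E (by rw [h7, hvy]) (by rw [h7]; exact hwK y hyP hyn hyx))
        · intro x hx x' hx' hxx
          have h6 := mem_ch.1 hx
          have h7 := mem_ch.1 hx'
          exact inj_nbr E (by rw [hup b₁ (Or.inl rfl)]; exact hyK) (R.adj_child h6.1 h6.2)
            (R.adj_child h7.1 h7.2) hxx
      have h8 := F4 y (mem_ch.2 hyp.1) hyp.2
      have h9 := Finset.card_insert_le b₁ ((ch z par y).erase (w y))
      rw [Finset.card_erase_of_mem hwm] at h9
      have h10 := Finset.card_pos.2 ⟨w y, hwm⟩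
      omega
    · -- the root goes to `y`
      have hyp := (hPmem y).1 hyP
      have hyl := hPlev y hyP
      have hmap : ∀ e, (e = b₁ ∨ e = b₂) → E.g e = b₁ ∨ E.g e = w y := by
        intro e he
        have hDe := hDeep e he
        have hle := hlev1 e he
        rcases down_or_up R E hDe.1 with h | h
        · right
          by_contra hcon
          have hpe : par (E.g e) = y := by rw [h.2, hDe.2.1, hvy]
          have hlge : lev (E.g e) = 3 := by rw [R.lpar _ h.1, hpe, hyl]
          obtain ⟨l, hl, hll⟩ := hDe.2.2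
          refine deep R E C.hlev hDe.1 h hl hll (by omega) ?_
          intro x hx hxK
          have h5 := R.lev_le hx
          rcases hxK with h6 | h6 | ⟨u, h6, _, _, h7⟩
          · rw [h6] at h5
            omega
          · have := R.lev_one h6.1 h6.2
            omega
          · have h8 := hwlev u h6
            rw [h7] at hx
            have h9 := R.eq_of_lev hx (by omega)
            have h10 : u = y := by rw [← (hw u h6).2, h9, hpe]
            subst h10
            exact hcon h9.symm
        · left
          rw [hDe.2.1, hvy, hyp.1.2] at h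
          exact h.2.symm
      have hb1K : b₁ ∈ K := hcK _ h1.1 h1.2.1
      have hwyK : w y ∈ K := hwK y hyP hyn hyx
      have hex : ∃ e e', (e = b₁ ∨ e = b₂) ∧ (e' = b₁ ∨ e' = b₂) ∧ E.g e = w y ∧
          E.g e' = b₁ := by
        rcases hmap b₁ (Or.inl rfl) with ha | ha <;> rcases hmap b₂ (Or.inr rfl) with hb | hb
        · exact absurd (inj_K E (by rw [ha, hb]) (by rw [ha]; exact hb1K)) h12
        · exact ⟨b₂, b₁, Or.inr rfl, Or.inl rfl, hb, ha⟩
        · exact ⟨b₁, b₂, Or.inl rfl, Or.inr rfl, ha, hb⟩
        · exact absurd (inj_K E (by rw [ha, hb]) (by rw [ha]; exact hwyK)) h12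
      obtain ⟨e, e', he, he', hge, hge'⟩ := hex
      have hle := hlev1 e he
      have hle' := hlev1 e' he'
      have hyc : ∃ c l, c ≠ z ∧ par c = e ∧ Desc z par c l ∧ lev l = d ∧
          n ≤ (sub z par c).card := by
        rcases he with rfl | rfl
        · obtain ⟨h5, l, hl, hll⟩ := (hPmem x₁).1 hx1P
          exact ⟨x₁, l, h5.1, h5.2, hl, hll, le_rfl⟩
        · obtain ⟨h5, l, hl, hll⟩ := (hPmem x₁).1 hx1P
          have hdb : Desc z par b₁ x₁ := desc_child h5.1 h5.2
          have h6 := mem_ch.1 (hφ.mem_ch R Desc.refl (mem_ch.2 h5))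
          rw [hφ.top] at h6
          refine ⟨φ x₁, φ l, h6.1, h6.2, hφ.desc R hdb hl, ?_, hφ.card_sub R hdb⟩
          rw [hφ.lev l (hdb.trans hl), hll]
      obtain ⟨c, l, hc1, hc2, hcl, hll, hcn⟩ := hyc
      have hlc : lev c = 2 := by rw [R.lpar _ hc1, hc2, hle]
      have hgc : E.g c = y := by
        rcases down_or_up R E hc1 with h | h
        · exfalso
          have hpe : par (E.g c) = w y := by rw [h.2, hc2, hge]
          have hlge : lev (E.g c) = 4 := by rw [R.lpar _ h.1, hpe, hwlev y hyP]
          refine deep R E C.hlev hc1 h hcl hll (by omega) ?_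
          intro x hx hxK
          have := R.lev_le hx
          have := (hKlev x hxK).2
          omega
        · rw [hc2, hge, (hw y hyP).2] at h
          exact h.2.symm
      have hyK : y ∉ K := by
        rintro (h6 | h6 | ⟨u, h6, _, _, h7⟩)
        · exact hyx h6
        · have := R.lev_one h6.1 h6.2
          omega
        · have h8 := hwlev u h6
          rw [← h7, hyl] at h8
          omega
      have ht := turn R E hc1 hgc hyK (by
        intro x hx hx2 hxK
        rcases hK2 _ hyl _ hx2 hxK with h | h
        · exact hyx h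
        · have h6 : x = e := inj_K E (by rw [h.2.2.2, hge]) (by rw [h.2.2.2]; exact hwyK)
          have h7 := R.lev_le hx
          rw [h6] at h7
          omega) (by
        intro x hx _ h
        rw [hyp.1.2] at h
        have h6 : x = e' := inj_K E (by rw [h, hge']) (by rw [h]; exact hb1K)
        have h7 := R.lev_le hx
        rw [h6] at h7
        omega)
      have h8 := card_lt_of R E ht (desc_child (hw y hyP).1 (hw y hyP).2) hwyK
      omega
  · -- otherwise
    push Not at hv3
    obtain ⟨l₁, hl₁, hll₁⟩ := h1.2.2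
    obtain ⟨l₂, hl₂, hll₂⟩ := h2.2.2
    have hvb1 : E.g z ≠ b₁ := by
      intro h
      rw [h] at hv2
      exact hv2 h1.2.1
    refine root_image R E C.hlev h12 h1.1 h2.1 h1.2.1 h2.2.1 hl₁ hl₂ hll₁ hll₂ hv ?_ ?_
    · rintro y hy hyv (rfl | h | ⟨u, h3, h4, h5, rfl⟩)
      · have h5 := hy.par_of_ne hyv
        rw [hx1.2] at h5
        have h6 := h5.par_of_ne hvb1.symm
        rw [h1.2.1] at h6
        exact hv (desc_z h6)
      · have h5 := hy.par_of_ne hyv
        rw [h.2] at h5
        exact hv (desc_z h5)
      · have h6 := hy.par_of_ne hyv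
        rw [(hw u h3).2] at h6
        have h7 := h6.par_of_ne (fun h => (hv3 u h3 h4 h5).2 h.symm)
        rw [((hPmem u).1 h3).1.2] at h7
        have h8 := h7.par_of_ne hvb1.symm
        rw [h1.2.1] at h8
        exact hv (desc_z h8)
    · by_cases hK : E.g z ∈ K
      · right
        rcases hK with h | h | ⟨u, h3, h4, h5, h6⟩
        · rw [h, hx1.2]
          exact hcK _ h1.1 h1.2.1
        · exact absurd h.2 hv2
        · exact absurd h6 (hv3 u h3 h4 h5).1
      · exact Or.inl hK

end

end Pool.Agent.R489.Wov
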