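import Mathlib
import Pool.Agent.R489.Wov.Step4

set_option autoImplicit false
set_option linter.unusedSectionVars false

namespace Pool.Agent.R489.Wov

open Pool.Agent.R68.Wov Finset

section

variable {V : Type} [Fintype V] {T : SimpleGraph V} {z : V} {par : V → V} {d : ℕ}

theorem nbr_ne {lev : V → ℕ} (R : RT T z par lev) {x : V} (hx : x ≠ z) :
    (T.neighborSet x).ncard = (ch z par x).card + 1 := by
  classical
  have h : T.neighborSet x = ((insert (par x) (ch z par x) : Finset V) : Set V) := by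
    ext y
    rw [SimpleGraph.mem_neighborSet, Finset.coe_insert, Set.mem_insert_iff, Finset.mem_coe, mem_ch]
    constructor
    · intro h
      rcases R.adj _ _ h with h | h
      · exact Or.inl h.2.symm
      · exact Or.inr h
    · rintro (rfl | h)
      · exact R.adjpar x hx
      · exact R.adj_child h.1 h.2
  rw [h, Set.ncard_coe_finset, Finset.card_insert_of_notMem]
  rw [mem_ch]
  rintro ⟨h1, h2⟩
  have h3 := R.lpar x hx
  have h4 := R.lpar _ h1
  rw [h2] at h4
  omega

theorem nbr_z {lev : V → ℕ} (R : RT T z par lev) :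
    (T.neighborSet z).ncard = (ch z par z).card := by
  classical
  have h : T.neighborSet z = ((ch z par z : Finset V) : Set V) := by
    ext y
    rw [SimpleGraph.mem_neighborSet, Finset.mem_coe, mem_ch]
    constructor
    · intro h
      rcases R.adj _ _ h with h | h
      · exact absurd rfl h.1
      · exact h
    · intro h
      exact R.adj_child h.1 h.2
  rw [h, Set.ncard_coe_finset]

theorem star_of_le_one {lev : V → ℕ} (R : RT T z par lev) (hlev : ∀ x, lev x ≤ 1)
    (hnt : 3 ≤ Fintype.card V) : IsStar T := by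
  classical
  have hp : ∀ x, x ≠ z → par x = z := by
    intro x hx
    by_contra h
    have h1 := R.lpar x hx
    have h2 := R.lpar _ h
    have := hlev x
    omega
  have hadj : ∀ x y, T.Adj x y ↔ (x = z ∧ y ≠ z) ∨ (x ≠ z ∧ y = z) := by
    intro x y
    constructor
    · intro h
      rcases R.adj _ _ h with h1 | h1
      · right
        exact ⟨h1.1, by rw [← h1.2, hp x h1.1]⟩
      · left
        exact ⟨by rw [← h1.2, hp y h1.1], h1.1⟩
    · rintro (⟨rfl, h⟩ | ⟨h, rfl⟩)
      · exact R.adj_child h (hp y h)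
      · exact (R.adj_child h (hp x h)).symm
  have hcard : Fintype.card {x : V // ¬ x = z} = Fintype.card V - 1 := by
    rw [Fintype.card_subtype_compl, Fintype.card_subtype_eq]
  refine ⟨Fintype.card V - 1, by omega, ⟨?_⟩⟩
  let e1 : V ≃ {x : V // x = z} ⊕ {x : V // ¬ x = z} := (Equiv.sumCompl (fun x => x = z)).symm
  let e2 : {x : V // x = z} ≃ Fin 1 := Fintype.equivFinOfCardEq (by
    rw [Fintype.card_subtype_eq])
  let e3 : {x : V // ¬ x = z} ≃ Fin (Fintype.card V - 1) := Fintype.equivFinOfCardEq hcard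
  refine ⟨e1.trans (Equiv.sumCongr e2 e3), ?_⟩
  intro x y
  rw [hadj, completeBipartiteGraph_adj]
  by_cases hx : x = z <;> by_cases hy : y = z <;>
    simp [e1, hx, hy, Equiv.sumCompl_symm_apply_of_pos, Equiv.sumCompl_symm_apply_of_neg]

theorem suitable {lev : V → ℕ} (hT : T.IsTree) (C : Ctx T z par lev 2) {b₁ b₂ : V}
    (h12 : b₁ ≠ b₂) (h1 : Deep z par lev 2 b₁) (h2 : Deep z par lev 2 b₂)
    (hD : ∀ c, Deep z par lev 2 c → c = b₁ ∨ c = b₂) (s : ℕ)
    (hs1 : (ch z par b₁).card = s) (hs2 : (ch z par b₂).card = s)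
    (F3 : (ch z par z).card ≤ s + 1) : IsSuitable T := by
  classical
  have R := C.R
  have hz1 : b₁ ∈ ch z par z := mem_ch.2 ⟨h1.1, h1.2.1⟩
  have hz2 : b₂ ∈ ch z par z := mem_ch.2 ⟨h2.1, h2.2.1⟩
  have hspos : 1 ≤ s := by
    obtain ⟨x, h3, h4⟩ := Deep.child C h1
    have := Finset.card_pos.2 ⟨x, (mem_ch (z := z) (par := par) (c := b₁)).2 ⟨h3, h4⟩⟩
    omega
  have hpar2 : ∀ x, x ≠ z → par x ≠ z → par x = b₁ ∨ par x = b₂ := by
    intro x hx hpx
    have h3 := R.lpar x hx
    have h4 := R.lpar _ hpx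
    have h5 := C.hlev x
    apply hD
    refine ⟨hpx, ?_, x, desc_child hx rfl, by omega⟩
    by_contra h6
    have := R.lpar _ h6
    omega
  refine ⟨s, hspos, hT, b₁, z, b₂, h12, (R.adj_child h1.1 h1.2.1).symm,
    R.adj_child h2.1 h2.2.1, ?_, ?_, ?_, ?_, ?_⟩
  · rw [nbr_ne R h1.1, hs1]
  · rw [nbr_ne R h2.1, hs2]
  · rw [nbr_z R]; exact F3
  · intro x hx1 hxz hx2
    rw [nbr_ne R hxz]
    have : ch z par x = ∅ := by
      rw [Finset.eq_empty_iff_forall_notMem]
      intro y hy
      have hy' := mem_ch.1 hy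
      rcases hpar2 y hy'.1 (by rw [hy'.2]; exact hxz) with h | h
      · exact hx1 (by rw [← hy'.2, h])
      · exact hx2 (by rw [← hy'.2, h])
    rw [this]
    simp
  · have hsub : ({x | x ≠ b₁ ∧ x ≠ z ∧ x ≠ b₂} : Set V) ⊆
        ((((ch z par z).erase b₁).erase b₂ ∪ (ch z par b₁ ∪ ch z par b₂) : Finset V) : Set V) := by
      rintro x ⟨hx1, hxz, hx2⟩
      rw [Finset.mem_coe, Finset.mem_union, Finset.mem_union]
      by_cases hp : par x = z
      · left
        rw [Finset.mem_erase, Finset.mem_erase]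
        exact ⟨hx2, hx1, mem_ch.2 ⟨hxz, hp⟩⟩
      · right
        rcases hpar2 x hxz hp with h | h
        · exact Or.inl (mem_ch.2 ⟨hxz, h⟩)
        · exact Or.inr (mem_ch.2 ⟨hxz, h⟩)
    have h3 := Set.ncard_le_ncard hsub (Finset.finite_toSet _)
    rw [Set.ncard_coe_finset] at h3
    have h4 := Finset.card_union_le (((ch z par z).erase b₁).erase b₂) (ch z par b₁ ∪ ch z par b₂)
    have h5 := Finset.card_union_le (ch z par b₁) (ch z par b₂)
    rw [Finset.card_erase_of_mem (Finset.mem_erase.2 ⟨h12.symm, hz2⟩),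
      Finset.card_erase_of_mem hz1] at h4
    omega

end

/-- TREE PART of the classification of connected woven graphs. -/
theorem tree_part {V : Type} [Fintype V] [DecidableEq V] (T : SimpleGraph V) (hT : T.IsTree)
    (_hedge : ∃ x y, T.Adj x y) (hnt : 3 ≤ Fintype.card V) (h1 : ¬ IsStar T)
    (h2 : ¬ IsSuitable T) : ∃ a b K, Adm T a b K ∧ IsEmpty (Emb T a b K) := by
  classical
  by_contra hcon
  push Not at hcon
  have hE : ∀ a b (K : Set V), Adm T a b K → Nonempty (Emb T a b K) := fun a b K h => by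
    have := hcon a b K h
    exact this
  have hVne : Nonempty V := hT.connected.nonempty
  let ecc : V → ℕ := fun p => univ.sup (fun x => T.dist p x)
  obtain ⟨z, _, hz⟩ := Finset.exists_min_image (univ : Finset V) ecc Finset.univ_nonempty
  obtain ⟨par, R⟩ := exists_RT hT z
  have hlev : ∀ x, T.dist z x ≤ ecc z := fun x =>
    Finset.le_sup (f := fun x => T.dist z x) (Finset.mem_univ x)
  have hmin : ∀ p, ∃ x, ecc z ≤ T.dist p x := by
    intro p
    obtain ⟨x, _, hx⟩ := Finset.exists_mem_eq_sup (univ : Finset V) Finset.univ_nonempty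
      (fun x => T.dist p x)
    refine ⟨x, ?_⟩
    rw [← hx]
    exact hz p (Finset.mem_univ p)
  have hd2 : 2 ≤ ecc z := by
    by_contra hlt
    exact h1 (star_of_le_one R (fun x => (hlev x).trans (by omega)) hnt)
  obtain ⟨d, hd⟩ : ∃ d, ecc z = d := ⟨_, rfl⟩
  rw [hd] at hlev hmin hd2
  have C : Ctx T z par (T.dist z) d := ⟨R, hd2, hlev, hE⟩
  let D : Finset V := univ.filter (fun c => Deep z par (T.dist z) d c)
  have hD : ∀ c, c ∈ D ↔ Deep z par (T.dist z) d c := by
    intro c
    simp [D]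
  have hDne : D.Nonempty := by
    obtain ⟨x, hx⟩ := hmin z
    have hxz : x ≠ z := by
      rintro rfl
      simp at hx
      omega
    obtain ⟨c, h3, h4, h5⟩ := R.exists_top x hxz
    exact ⟨c, (hD c).2 ⟨h3, h4, x, h5, le_antisymm (hlev x) hx⟩⟩
  have hpos := Finset.card_pos.2 hDne
  by_cases hc1 : D.card = 1
  · obtain ⟨c, hc⟩ := Finset.card_eq_one.1 hc1
    refine step0 hT C hmin c ((hD c).1 (by rw [hc]; simp)) ?_
    intro c' hc'
    have := (hD c').2 hc'
    rw [hc] at this
    exact Finset.mem_singleton.1 this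
  by_cases hc3 : 3 ≤ D.card
  · exact step1 C D hD hc3
  obtain ⟨b₁, b₂, h12, hDe⟩ := Finset.card_eq_two.1 (show D.card = 2 by omega)
  have hb1 : Deep z par (T.dist z) d b₁ := (hD b₁).1 (by rw [hDe]; simp)
  have hb2 : Deep z par (T.dist z) d b₂ := (hD b₂).1 (by rw [hDe]; simp)
  have hD12 : ∀ c, Deep z par (T.dist z) d c → c = b₁ ∨ c = b₂ := by
    intro c hc
    have := (hD c).2 hc
    rw [hDe] at this
    simpa using this
  obtain ⟨φ, hφ⟩ := step2 C h12 hb1 hb2 hD12
  obtain ⟨ψ, hψ⟩ := step2 C h12.symm hb2 hb1 (fun c hc => (hD12 c hc).symm)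
  have hs1 : (sub z par b₁).card = (sub z par b₂).card := by
    apply le_antisymm
    · have := hφ.card_sub R (x := b₁) Desc.refl
      rwa [hφ.top] at this
    · have := hψ.card_sub R (x := b₂) Desc.refl
      rwa [hψ.top] at this
  have hch1 : (ch z par b₁).card = (ch z par b₂).card := by
    apply le_antisymm
    · have := hφ.card_ch R (x := b₁) Desc.refl
      rwa [hφ.top] at this
    · have := hψ.card_ch R (x := b₂) Desc.refl
      rwa [hψ.top] at this
  obtain ⟨F3, e, he, F4⟩ := step3 C h12 hb1 hb2 hD12 hs1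
  by_cases hd3 : 3 ≤ d
  · refine step4 C hd3 h12 hb1 hb2 hD12 (ch z par b₂).card hch1 rfl F3 ?_ hφ
    intro y hy hreach
    rcases he with rfl | rfl
    · exact F4 y hy hreach
    · have hy' := mem_ch.1 hy
      have hdb : Desc z par b₁ y := desc_child hy'.1 hy'.2
      have h5 := hφ.mem_ch R Desc.refl hy
      rw [hφ.top] at h5
      obtain ⟨l, hl, hll⟩ := hreach
      have h6 := F4 (φ y) h5 ⟨φ l, hφ.desc R hdb hl, by rw [hφ.lev l (hdb.trans hl), hll]⟩
      have h7 := hφ.card_ch R hdb
      omega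
  · have hd' : d = 2 := by omega
    subst hd'
    exact h2 (suitable hT C h12 hb1 hb2 hD12 (ch z par b₂).card hch1 rfl F3)

end Pool.Agent.R489.Wov
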